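import Mathlib

/-!
# Torus actions on projective schemes over a base ring: semi-invariant rational functions
-/

set_option autoImplicit false

universe u

open MvPolynomial

namespace Pool.Agent.Run7.h360.TA.Adic

section si

variable {K : Type u} [Field K] (O : Subring K) {m r : ℕ} (z : Fin m → K) (w : Fin m → (Fin r → ℤ))

/-- `x` is a semi-invariant rational function of weight `d`. -/
def SI (d : Fin r → ℤ) (x : K) : Prop :=
  ∃ (n : ℕ) (e : Fin r → ℤ) (F G : MvPolynomial (Fin m) O), F.IsHomogeneous n ∧ G.IsHomogeneous n ∧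
    IsWeightedHomogeneous w F (d + e) ∧ IsWeightedHomogeneous w G e ∧ aeval z G ≠ 0 ∧
      x = aeval z F / aeval z G

/-- The homogeneous ideal of the relations is graded by the weights. -/
def Act : Prop :=
  ∀ (n : ℕ) (F : MvPolynomial (Fin m) O), F.IsHomogeneous n → aeval z F = 0 →
    ∀ d, aeval z (weightedHomogeneousComponent w d F) = 0

variable {O z w}

theorem SI.mul {d d' : Fin r → ℤ} {x y : K} (hx : SI O z w d x) (hy : SI O z w d' y) :
    SI O z w (d + d') (x * y) := by
  obtain ⟨n, e, F, G, h1, h2, h3, h4, h5, rfl⟩ := hx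
  obtain ⟨n', e', F', G', h1', h2', h3', h4', h5', rfl⟩ := hy
  refine ⟨n + n', e + e', F * F', G * G', h1.mul h1', h2.mul h2', ?_, h4.mul h4', ?_, ?_⟩
  · have h := h3.mul h3'
    have e1 : d + d' + (e + e') = d + e + (d' + e') := by abel
    rw [e1]; exact h
  · rw [map_mul]; exact mul_ne_zero h5 h5'
  · rw [map_mul, map_mul, div_mul_div_comm]

theorem SI.inv {d : Fin r → ℤ} {x : K} (hx : SI O z w d x) (h0 : x ≠ 0) : SI O z w (-d) x⁻¹ := by
  obtain ⟨n, e, F, G, h1, h2, h3, h4, h5, rfl⟩ := hx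
  refine ⟨n, d + e, G, F, h2, h1, ?_, h3, ?_, by rw [inv_div]⟩
  · have e1 : -d + (d + e) = e := by abel
    rw [e1]; exact h4
  · intro h
    exact h0 (by rw [h, zero_div])

theorem SI.one : SI O z w 0 (1 : K) :=
  ⟨0, 0, 1, 1, isHomogeneous_one _ _, isHomogeneous_one _ _, by
    rw [add_zero]; exact isWeightedHomogeneous_one _ _, isWeightedHomogeneous_one _ _, by
    rw [map_one]; exact one_ne_zero, by rw [map_one, div_one]⟩

theorem SI.const (a : O) : SI O z w 0 (a : K) :=
  ⟨0, 0, C a, 1, isHomogeneous_C _ _, isHomogeneous_one _ _, by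
    rw [add_zero]; exact isWeightedHomogeneous_C _ _, isWeightedHomogeneous_one _ _, by
    rw [map_one]; exact one_ne_zero, by rw [map_one, div_one, aeval_C]; rfl⟩

theorem SI.add {d : Fin r → ℤ} {x y : K} (hx : SI O z w d x) (hy : SI O z w d y) :
    SI O z w d (x + y) := by
  obtain ⟨n, e, F, G, h1, h2, h3, h4, h5, rfl⟩ := hx
  obtain ⟨n', e', F', G', h1', h2', h3', h4', h5', rfl⟩ := hy
  refine ⟨n + n', e + e', F * G' + G * F', G * G', (h1.mul h2').add (h2.mul h1'), h2.mul h2', ?_,
    h4.mul h4', ?_, ?_⟩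
  · have h := h3.mul h4'
    have h' := h4.mul h3'
    have e1 : d + (e + e') = d + e + e' := by abel
    have e2 : d + (e + e') = e + (d + e') := by abel
    refine IsWeightedHomogeneous.add ?_ ?_
    · rw [e1]; exact h
    · rw [e2]; exact h'
  · rw [map_mul]; exact mul_ne_zero h5 h5'
  · rw [map_mul, map_add, map_mul, map_mul, div_add_div _ _ h5 h5']

theorem SI.neg {d : Fin r → ℤ} {x : K} (hx : SI O z w d x) : SI O z w d (-x) := by
  obtain ⟨n, e, F, G, h1, h2, h3, h4, h5, rfl⟩ := hx
  exact ⟨n, e, -F, G, h1.neg, h2, h3.neg, h4, h5, by rw [map_neg, neg_div]⟩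

theorem SI.zero' (d : Fin r → ℤ) : SI O z w d (0 : K) :=
  ⟨0, 0, 0, 1, isHomogeneous_zero _ _ _, isHomogeneous_one _ _, isWeightedHomogeneous_zero _ _ _,
    isWeightedHomogeneous_one _ _, by rw [map_one]; exact one_ne_zero, by rw [map_zero, zero_div]⟩

theorem SI.pow {d : Fin r → ℤ} {x : K} (hx : SI O z w d x) (n : ℕ) : SI O z w (n • d) (x ^ n) := by
  induction n with
  | zero => rw [zero_smul, pow_zero]; exact SI.one
  | succ n ih => rw [succ_nsmul, pow_succ]; exact ih.mul hx

theorem SI.zpow {d : Fin r → ℤ} {x : K} (hx : SI O z w d x) (h0 : x ≠ 0) (n : ℤ) :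
    SI O z w (n • d) (x ^ n) := by
  cases n with
  | ofNat n => rw [Int.ofNat_eq_natCast, natCast_zsmul, zpow_natCast]; exact hx.pow n
  | negSucc n =>
    rw [negSucc_zsmul, zpow_negSucc]
    exact (hx.pow (n + 1)).inv (pow_ne_zero _ h0)

theorem SI.prod {σ : Type*} (s : Finset σ) (d : σ → (Fin r → ℤ)) (x : σ → K)
    (h : ∀ i ∈ s, SI O z w (d i) (x i)) : SI O z w (∑ i ∈ s, d i) (∏ i ∈ s, x i) := by
  classical
  induction s using Finset.induction_on with
  | empty => rw [Finset.sum_empty, Finset.prod_empty]; exact SI.one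
  | insert i s hi ih =>
    rw [Finset.sum_insert hi, Finset.prod_insert hi]
    exact (h i (Finset.mem_insert_self _ _)).mul (ih fun j hj => h j (Finset.mem_insert_of_mem hj))

/-- A common denominator. -/
theorem common {σ : Type*} (s : Finset σ) (d : σ → (Fin r → ℤ)) (x : σ → K)
    (h : ∀ i ∈ s, SI O z w (d i) (x i)) :
    ∃ (n : ℕ) (e : Fin r → ℤ) (G : MvPolynomial (Fin m) O), G.IsHomogeneous n ∧
      IsWeightedHomogeneous w G e ∧ aeval z G ≠ 0 ∧ ∀ i ∈ s, ∃ F : MvPolynomial (Fin m) O,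
        F.IsHomogeneous n ∧ IsWeightedHomogeneous w F (d i + e) ∧ aeval z G * x i = aeval z F := by
  classical
  induction s using Finset.induction_on with
  | empty =>
    exact ⟨0, 0, 1, isHomogeneous_one _ _, isWeightedHomogeneous_one _ _, by
      rw [map_one]; exact one_ne_zero, by simp⟩
  | insert i s hi ih =>
    obtain ⟨n, e, G, h1, h2, h3, hs⟩ := ih fun j hj => h j (Finset.mem_insert_of_mem hj)
    obtain ⟨n', e', F', G', h1', h2', h3', h4', h5', hx⟩ := h i (Finset.mem_insert_self _ _)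
    refine ⟨n + n', e + e', G * G', h1.mul h2', h2.mul h4', by rw [map_mul]; exact mul_ne_zero h3 h5', ?_⟩
    intro j hj
    rcases Finset.mem_insert.1 hj with rfl | hj
    · refine ⟨G * F', h1.mul h1', ?_, ?_⟩
      · have h := h2.mul h3'
        have e1 : d j + (e + e') = e + (d j + e') := by abel
        rw [e1]; exact h
      · rw [hx, map_mul, map_mul, mul_assoc, mul_div_cancel₀ _ h5']
    · obtain ⟨F, hF1, hF2, hF3⟩ := hs j hj
      refine ⟨F * G', hF1.mul h2', ?_, ?_⟩
      · have h := hF2.mul h4'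
        rw [← add_assoc]; exact h
      · rw [map_mul, map_mul, ← hF3]; ring

theorem sum_zero (hact : Act O z w) {σ : Type*} (s : Finset σ) (d : σ → (Fin r → ℤ)) (x : σ → K)
    (hd : Set.InjOn d s) (h : ∀ i ∈ s, SI O z w (d i) (x i)) (h0 : ∑ i ∈ s, x i = 0) :
    ∀ i ∈ s, x i = 0 := by
  classical
  obtain ⟨n, e, G, h1, h2, h3, hs⟩ := common s d x h
  choose! F hF1 hF2 hF3 using hs
  have h4 : aeval z (∑ i ∈ s, F i) = 0 := by
    rw [map_sum, ← Finset.sum_congr rfl hF3, ← Finset.mul_sum, h0, mul_zero]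
  have h5 : (∑ i ∈ s, F i).IsHomogeneous n := IsHomogeneous.sum _ _ _ hF1
  intro i hi
  have h6 := hact n _ h5 h4 (d i + e)
  have h7 : weightedHomogeneousComponent w (d i + e) (∑ j ∈ s, F j) = F i := by
    rw [map_sum, Finset.sum_eq_single i]
    · exact (hF2 i hi).weightedHomogeneousComponent_same
    · intro j hj hji
      refine (hF2 j hj).weightedHomogeneousComponent_ne _ fun he => ?_
      exact hji (hd hi hj (add_right_cancel he)).symm
    · exact fun hi' => absurd hi hi'
  rw [h7, ← hF3 i hi] at h6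
  exact (mul_eq_zero.1 h6).resolve_left h3

variable (O z w) in
/-- The field of the invariant rational functions. -/
def invField : Subfield K where
  carrier := {x | SI O z w 0 x}
  mul_mem' {x y} hx hy := by
    have h := SI.mul hx hy
    rw [add_zero] at h
    exact h
  one_mem' := SI.one
  add_mem' hx hy := SI.add hx hy
  zero_mem' := SI.zero' 0
  neg_mem' hx := SI.neg hx
  inv_mem' x hx := by
    by_cases h0 : x = 0
    · rw [h0, inv_zero]; exact SI.zero' 0
    · have h := SI.inv hx h0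
      rw [neg_zero] at h
      exact h

theorem algInd (hact : Act O z w) {n : ℕ} (x : Fin n → K) (l : Fin n → (Fin r → ℤ))
    (hl : LinearIndependent ℤ l) (hx : ∀ j, SI O z w (l j) (x j)) (hx0 : ∀ j, x j ≠ 0) :
    AlgebraicIndependent (invField O z w) x := by
  classical
  rw [algebraicIndependent_iff]
  intro p hp
  rw [MvPolynomial.aeval_def, MvPolynomial.eval₂_eq] at hp
  have h1 := sum_zero hact p.support (fun s => ∑ j, (s j : ℤ) • l j)
    (fun s => algebraMap (invField O z w) K (p.coeff s) * ∏ i ∈ s.support, x i ^ s i) ?_ ?_ hp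
  · refine MvPolynomial.ext _ _ fun s => ?_
    rw [MvPolynomial.coeff_zero]
    by_contra hm
    have h2 := h1 s (MvPolynomial.mem_support_iff.2 hm)
    rcases mul_eq_zero.1 h2 with h3 | h3
    · exact hm ((map_eq_zero (algebraMap (invField O z w) K)).1 h3)
    · obtain ⟨i, hi, h4⟩ := Finset.prod_eq_zero_iff.1 h3
      exact pow_ne_zero _ (hx0 i) h4
  · intro s hs s' hs' he
    have h3 : ∑ j, ((s j : ℤ) - (s' j : ℤ)) • l j = 0 := by
      simp only [sub_smul, Finset.sum_sub_distrib]
      exact sub_eq_zero.2 he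
    have h4 := Fintype.linearIndependent_iff.1 hl _ h3
    ext j
    have := h4 j
    omega
  · intro s hs
    have e1 : ∏ i ∈ s.support, x i ^ s i = ∏ i, x i ^ s i := by
      apply Finset.prod_subset (Finset.subset_univ _)
      intro i _ hi
      rw [Finsupp.notMem_support_iff.1 hi, pow_zero]
    rw [e1]
    have h5 : SI O z w 0 ((MvPolynomial.coeff s p : invField O z w) : K) := (MvPolynomial.coeff s p).2
    have h6 := SI.prod (O := O) (z := z) (w := w) Finset.univ (fun j => (s j : ℤ) • l j)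
      (fun j => x j ^ s j) (by
        intro j _
        have := (hx j).pow (s j)
        rw [natCast_zsmul]; exact this)
    have h7 := h5.mul h6
    rw [zero_add] at h7
    exact h7

/-- Laurent monomials with common exponents. -/
theorem prod_zpow_sum {σ τ : Type*} (s : Finset σ) (t : Finset τ) (x : σ → K) (hx : ∀ i, x i ≠ 0)
    (c : τ → σ → ℤ) (e : τ → ℤ) :
    ∏ j ∈ t, (∏ i ∈ s, x i ^ c j i) ^ e j = ∏ i ∈ s, x i ^ (∑ j ∈ t, e j * c j i) := by
  classical
  have h : ∀ (y : K), y ≠ 0 → ∀ f : τ → ℤ, y ^ (∑ j ∈ t, f j) = ∏ j ∈ t, y ^ f j := by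
    intro y hy f
    induction t using Finset.induction_on with
    | empty => simp
    | insert a t ha ih => rw [Finset.sum_insert ha, Finset.prod_insert ha, zpow_add₀ hy, ih]
  calc ∏ j ∈ t, (∏ i ∈ s, x i ^ c j i) ^ e j = ∏ j ∈ t, ∏ i ∈ s, x i ^ (e j * c j i) := by
        refine Finset.prod_congr rfl fun j _ => ?_
        rw [← Finset.prod_zpow]
        refine Finset.prod_congr rfl fun i _ => ?_
        rw [← zpow_mul, mul_comm]
    _ = ∏ i ∈ s, ∏ j ∈ t, x i ^ (e j * c j i) := Finset.prod_comm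
    _ = _ := by
        refine Finset.prod_congr rfl fun i _ => ?_
        rw [h (x i) (hx i)]

/-- **The structure of the function field.** -/
theorem structure_thm (hact : Act O z w) (hz0 : ∀ i, z i ≠ 0) (i0 : Fin m) (hi0 : z i0 = 1)
    (hK : ∀ y : K, ∃ F G : MvPolynomial (Fin m) O, aeval z G ≠ 0 ∧ y = aeval z F / aeval z G) :
    ∃ (n : ℕ) (x : Fin n → K) (a : Fin m → K) (c : Fin m → Fin n → ℤ) (ez : Fin n → Fin m → ℤ),
      (∀ j, x j = ∏ i, z i ^ ez j i) ∧ (∀ i, a i ∈ invField O z w) ∧ (∀ j, x j ≠ 0) ∧ (∀ i, a i ≠ 0) ∧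
      (∀ i, z i = a i * ∏ j, x j ^ c i j) ∧ (∀ i, a i = z i * ∏ j, x j ^ (-c i j)) ∧
      AlgebraicIndependent (invField O z w) x ∧
      invField O z w = Subfield.closure ((O : Set K) ∪ Set.range a) ∧
      IntermediateField.adjoin (invField O z w) (Set.range x) = ⊤ := by
  classical
  let d : Fin m → (Fin r → ℤ) := fun i => w i - w i0
  have hzd : ∀ i, SI O z w (d i) (z i) := by
    intro i
    refine ⟨1, w i0, X i, X i0, isHomogeneous_X _ _, isHomogeneous_X _ _, ?_,
      isWeightedHomogeneous_X _ _ _, by rw [aeval_X, hi0]; exact one_ne_zero, by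
        rw [aeval_X, aeval_X, hi0, div_one]⟩
    have e1 : d i + w i0 = w i := by simp [d]
    rw [e1]
    exact isWeightedHomogeneous_X _ _ _
  have hLM : ∀ e : Fin m → ℤ, SI O z w (∑ i, e i • d i) (∏ i, z i ^ e i) := fun e =>
    SI.prod Finset.univ _ _ fun i _ => (hzd i).zpow (hz0 i) _
  have hLM0 : ∀ e : Fin m → ℤ, ∏ i, z i ^ e i ≠ 0 := fun e =>
    Finset.prod_ne_zero_iff.2 fun i _ => zpow_ne_zero _ (hz0 i)
  let L : Submodule ℤ (Fin r → ℤ) := Submodule.span ℤ (Set.range d)
  obtain ⟨n, bL⟩ := Submodule.basisOfPid (Pi.basisFun ℤ (Fin r)) L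
  have hL : ∀ l ∈ L, ∃ e : Fin m → ℤ, ∑ i, e i • d i = l := fun l hl =>
    (Submodule.mem_span_range_iff_exists_fun ℤ).1 hl
  choose ez hez using fun j : Fin n => hL (bL j : Fin r → ℤ) (bL j).2
  let x : Fin n → K := fun j => ∏ i, z i ^ ez j i
  have hx : ∀ j, SI O z w (bL j : Fin r → ℤ) (x j) := by
    intro j
    have h := hLM (ez j)
    rw [hez] at h
    exact h
  have hx0 : ∀ j, x j ≠ 0 := fun j => hLM0 _
  have hdL : ∀ i, d i ∈ L := fun i => Submodule.subset_span ⟨i, rfl⟩
  let c : Fin m → Fin n → ℤ := fun i j => bL.repr ⟨d i, hdL i⟩ j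
  have hc : ∀ i, ∑ j, c i j • (bL j : Fin r → ℤ) = d i := by
    intro i
    have h1 := bL.sum_repr ⟨d i, hdL i⟩
    have h2 : ((∑ j, c i j • bL j : L) : Fin r → ℤ) = d i :=
      congrArg (Subtype.val : L → (Fin r → ℤ)) h1
    rw [AddSubmonoidClass.coe_finsetSum] at h2
    exact h2
  let a : Fin m → K := fun i => z i * ∏ j, x j ^ (-c i j)
  have hinv : ∀ i, ∏ j, x j ^ (-c i j) = (∏ j, x j ^ c i j)⁻¹ := by
    intro i
    rw [← Finset.prod_inv_distrib]
    exact Finset.prod_congr rfl fun j _ => zpow_neg _ _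
  have hxc0 : ∀ i, ∏ j, x j ^ c i j ≠ 0 := fun i =>
    Finset.prod_ne_zero_iff.2 fun j _ => zpow_ne_zero _ (hx0 j)
  have ha : ∀ i, SI O z w 0 (a i) := by
    intro i
    have h1 := (hzd i).mul (SI.prod (O := O) (z := z) (w := w) Finset.univ _ _ fun j _ =>
      (hx j).zpow (hx0 j) (-c i j))
    have h2 : d i + ∑ j, -c i j • (bL j : Fin r → ℤ) = 0 := by
      simp only [neg_smul, Finset.sum_neg_distrib]
      rw [hc i, add_neg_cancel]
    rw [h2] at h1
    exact h1
  have ha0 : ∀ i, a i ≠ 0 := by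
    intro i
    refine mul_ne_zero (hz0 i) ?_
    rw [hinv]
    exact inv_ne_zero (hxc0 i)
  have hza : ∀ i, z i = a i * ∏ j, x j ^ c i j := by
    intro i
    change z i = (z i * ∏ j, x j ^ (-c i j)) * ∏ j, x j ^ c i j
    rw [hinv, inv_mul_cancel_right₀ (hxc0 i)]
  have hind : AlgebraicIndependent (invField O z w) x :=
    algInd hact x (fun j => (bL j : Fin r → ℤ))
      (bL.linearIndependent.map' L.subtype (Submodule.ker_subtype L)) hx hx0
  have hOE : ∀ b : O, (b : K) ∈ invField O z w := fun b => SI.const b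
  have hEcl : invField O z w = Subfield.closure ((O : Set K) ∪ Set.range a) := by
    refine le_antisymm ?_ ?_
    · intro y hy
      obtain ⟨N, e, F, G, h1, h2, h3, h4, h5, rfl⟩ := hy
      rw [zero_add] at h3
      -- the exponents of `x`
      have hmon : ∀ s : Fin m →₀ ℕ, ∏ i, z i ^ s i = (∏ i, a i ^ s i) * ∏ j, x j ^ (∑ i, (s i : ℤ) * c i j) := by
        intro s
        rw [← prod_zpow_sum Finset.univ Finset.univ x hx0 c (fun i => (s i : ℤ)), ← Finset.prod_mul_distrib]
        refine Finset.prod_congr rfl fun i _ => ?_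
        rw [zpow_natCast, ← mul_pow, ← hza]
      have hsum : ∀ s : Fin m →₀ ℕ, ∀ j, ∑ i, (s i : ℤ) * c i j =
          bL.repr (∑ i, (s i : ℤ) • (⟨d i, hdL i⟩ : L)) j := by
        intro s j
        rw [map_sum, Finsupp.finsetSum_apply]
        refine Finset.sum_congr rfl fun i _ => ?_
        rw [map_zsmul, Finsupp.smul_apply, smul_eq_mul]
      have hdeg : ∀ P : MvPolynomial (Fin m) O, P.IsHomogeneous N → IsWeightedHomogeneous w P e →
          ∀ s ∈ P.support, ∑ i, (s i : ℤ) • d i = e - (N : ℤ) • w i0 := by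
        intro P hP1 hP2 s hs
        have h6 := hP1 (mem_support_iff.1 hs)
        have h7 := hP2 (mem_support_iff.1 hs)
        have h8 : ∑ i, (s i : ℤ) • w i = e := by
          rw [← h7, Finsupp.weight_apply, Finsupp.sum_fintype _ _ (fun i => by simp)]
          exact Finset.sum_congr rfl fun i _ => natCast_zsmul _ _
        have h9 : ∑ i, s i = N := by
          rw [← h6, Finsupp.weight_apply, Finsupp.sum_fintype _ _ (fun i => by simp)]
          exact Finset.sum_congr rfl fun i _ => by simp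
        simp only [d, smul_sub, Finset.sum_sub_distrib]
        rw [h8, ← Finset.sum_smul, ← h9]
        push_cast
        rfl
      have hG0 : G ≠ 0 := by
        rintro rfl
        exact h5 (map_zero _)
      obtain ⟨s0, hs0⟩ := support_nonempty.2 hG0
      let γ : Fin n → ℤ := fun j => ∑ i, (s0 i : ℤ) * c i j
      have hexp : ∀ P : MvPolynomial (Fin m) O, P.IsHomogeneous N → IsWeightedHomogeneous w P e →
          ∀ s ∈ P.support, ∀ j, ∑ i, (s i : ℤ) * c i j = γ j := by
        intro P hP1 hP2 s hs j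
        change _ = ∑ i, (s0 i : ℤ) * c i j
        rw [hsum, hsum]
        congr 2
        apply Subtype.ext
        rw [AddSubmonoidClass.coe_finsetSum, AddSubmonoidClass.coe_finsetSum]
        exact (hdeg P hP1 hP2 s hs).trans (hdeg G h2 h4 s0 hs0).symm
      have hs1 : ∀ b : O, (b : K) ∈ Subfield.closure ((O : Set K) ∪ Set.range a) := fun b =>
        Subfield.subset_closure (Or.inl b.2)
      have hs2 : ∀ i, a i ∈ Subfield.closure ((O : Set K) ∪ Set.range a) := fun i =>
        Subfield.subset_closure (Or.inr (Set.mem_range_self i))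
      have hval : ∀ P : MvPolynomial (Fin m) O, P.IsHomogeneous N → IsWeightedHomogeneous w P e →
          ∃ f ∈ Subfield.closure ((O : Set K) ∪ Set.range a), aeval z P = f * ∏ j, x j ^ γ j := by
        intro P hP1 hP2
        refine ⟨∑ s ∈ P.support, ((P.coeff s : O) : K) * ∏ i, a i ^ s i, ?_, ?_⟩
        · exact sum_mem fun s _ => mul_mem (hs1 _) (prod_mem fun i _ => pow_mem (hs2 i) _)
        · rw [aeval_def, eval₂_eq', Finset.sum_mul]
          refine Finset.sum_congr rfl fun s hs => ?_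
          have h10 : ∏ j, x j ^ (∑ i, (s i : ℤ) * c i j) = ∏ j, x j ^ γ j :=
            Finset.prod_congr rfl fun j _ => congrArg (fun t => x j ^ t) (hexp P hP1 hP2 s hs j)
          rw [hmon s, h10, mul_assoc]
          rfl
      obtain ⟨f, hf, hf'⟩ := hval F h1 h3
      obtain ⟨g, hg, hg'⟩ := hval G h2 h4
      have hγ0 : ∏ j, x j ^ γ j ≠ 0 := Finset.prod_ne_zero_iff.2 fun j _ => zpow_ne_zero _ (hx0 j)
      rw [hf', hg', mul_div_mul_right _ _ hγ0]
      exact div_mem hf hg
    · rw [Subfield.closure_le]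
      rintro y (hy | ⟨i, rfl⟩)
      · exact hOE ⟨y, hy⟩
      · exact ha i
  refine ⟨n, x, a, c, ez, fun j => rfl, ha, hx0, ha0, hza, fun i => rfl, hind, hEcl, ?_⟩
  rw [eq_top_iff]
  intro y _
  have hzm : ∀ i, z i ∈ IntermediateField.adjoin (invField O z w) (Set.range x) := by
    intro i
    rw [hza i]
    refine mul_mem ?_ (prod_mem fun j _ => zpow_mem
      (IntermediateField.subset_adjoin (invField O z w) (Set.range x) (Set.mem_range_self j)) _)
    exact IntermediateField.algebraMap_mem _ (⟨a i, ha i⟩ : invField O z w)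
  have hP : ∀ P : MvPolynomial (Fin m) O, aeval z P ∈
      IntermediateField.adjoin (invField O z w) (Set.range x) := by
    intro P
    rw [aeval_def, eval₂_eq']
    refine sum_mem fun s _ => mul_mem ?_ (prod_mem fun i _ => pow_mem (hzm i) _)
    exact IntermediateField.algebraMap_mem _ (⟨_, hOE (P.coeff s)⟩ : invField O z w)
  obtain ⟨F, G, -, rfl⟩ := hK y
  exact div_mem (hP F) (hP G)

end si

end Pool.Agent.Run7.h360.TA.Adic
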