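import Pool.Agent.N98.Cnt

/-!
# The affine space has degree one
-/

set_option autoImplicit false

universe u

open MvPolynomial

namespace Pool.Agent.Run7.h360.TA.Adic

theorem sum_choose (n t : ℕ) : ∑ s ∈ Finset.range (t + 1), (n + s - 1).choose s = (n + t).choose t := by
  induction t with
  | zero => simp
  | succ t ih =>
    rw [Finset.sum_range_succ, ih]
    have h1 : n + (t + 1) - 1 = n + t := by omega
    rw [h1, show n + (t + 1) = n + t + 1 by omega, Nat.choose_succ_succ]

theorem degree_one {E K : Type u} [Field E] [Field K] [Algebra E K] {n : ℕ} (x : Fin n → K)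
    (hind : AlgebraicIndependent E x) (htop : IntermediateField.adjoin E (Set.range x) = ⊤) :
    Algebra.trdeg E K = n ∧ ∃ C : ℕ, ∀ t : ℕ,
      n.factorial * Module.finrank E (Pool.Agent.N98.img E x t) ≤ 1 * (t + C) ^ n := by
  constructor
  · have halg : Algebra.IsAlgebraic (Algebra.adjoin E (Set.range x)) K := by
      refine ⟨fun y => ?_⟩
      have hy : y ∈ IntermediateField.adjoin E (Set.range x) := by rw [htop]; trivial
      rw [IntermediateField.mem_adjoin_iff_div] at hy
      obtain ⟨a, ha, b, hb, rfl⟩ := hy
      have h1 : IsAlgebraic (Algebra.adjoin E (Set.range x)) a :=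
        isAlgebraic_algebraMap (⟨a, ha⟩ : Algebra.adjoin E (Set.range x))
      have h2 : IsAlgebraic (Algebra.adjoin E (Set.range x)) b :=
        isAlgebraic_algebraMap (⟨b, hb⟩ : Algebra.adjoin E (Set.range x))
      rw [div_eq_mul_inv]
      exact h1.mul h2.inv
    have h := (hind.isTranscendenceBasis_iff_isAlgebraic.2 halg).lift_cardinalMk_eq_trdeg
    rw [Cardinal.mk_fin, Cardinal.lift_natCast] at h
    have h3 := congrArg Cardinal.toNat h
    rw [Cardinal.toNat_natCast, Cardinal.toNat_lift] at h3
    have h4 : Cardinal.lift.{0, u} (Algebra.trdeg E K) = (n : Cardinal) := h.symm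
    rw [Cardinal.lift_uzero] at h4
    exact h4
  · refine ⟨n, fun t => ?_⟩
    have h1 : Module.finrank E (Pool.Agent.N98.img E x t) ≤
        Module.finrank E (restrictTotalDegree (Fin n) E t) := by
      have : FiniteDimensional E (restrictTotalDegree (Fin n) E t) := inferInstance
      exact Submodule.finrank_map_le _ _
    rw [Pool.Agent.N98.finrank_restrict, Pool.Agent.N98.card_eq_sum, Fintype.card_fin,
      sum_choose] at h1
    calc n.factorial * Module.finrank E (Pool.Agent.N98.img E x t)
        ≤ n.factorial * (n + t).choose t := Nat.mul_le_mul_left _ h1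
      _ = n.factorial * (t + n).choose n := by
          rw [add_comm n t]
          rw [Nat.choose_symm_add]
      _ = (t + 1).ascFactorial n := (Nat.ascFactorial_eq_factorial_mul_choose _ _).symm
      _ ≤ (t + n) ^ n := Nat.ascFactorial_le_pow_add _ _
      _ = 1 * (t + n) ^ n := (one_mul _).symm

end Pool.Agent.Run7.h360.TA.Adic
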