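import Pool.Agent.Run7.h360.TA.Tower

/-!
# Torus actions: homogeneous fractions of a graded domain
-/

set_option autoImplicit false

open Pool.Agent.N762.FP

namespace Pool.Agent.Run7.h360.TA

theorem core2 (p : ℕ) [Fact p.Prime] {k K : Type} [Field k] [CharP k p] [Field K] [Algebra k K]
    {r : ℕ} (F : IntermediateField k K) (H : (Fin r → ℤ) → K → Prop)
    (hmul : ∀ d d' x y, H d x → H d' y → H (d + d') (x * y))
    (hinv : ∀ d x, H d x → x ≠ 0 → H (-d) x⁻¹) (hone : H 0 1) (hF : ∀ x, H 0 x → x ∈ F)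
    (hind : ∀ (n : ℕ) (z : Fin n → K) (l : Fin n → (Fin r → ℤ)), LinearIndependent ℤ l →
      (∀ j, H (l j) (z j)) → (∀ j, z j ≠ 0) → AlgebraicIndependent F z)
    (P : Set F) (hP : Mod k P) {m : ℕ} (x : Fin m → K) (d : Fin m → (Fin r → ℤ))
    (hx0 : ∀ i, x i ≠ 0) (hxH : ∀ i, H (d i) (x i))
    (hxtop : IntermediateField.adjoin F (Set.range x) = ⊤)
    (hmono : ∀ e : Fin m → ℤ, ∑ i, e i • d i = 0 → ∀ y : F, (y : K) = ∏ i, x i ^ e i → y ∈ P) :
    Mod k (Set.range x) := by
  classical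
  have hpow : ∀ d y, H d y → ∀ n : ℕ, H (n • d) (y ^ n) := by
    intro d y hy n
    induction n with
    | zero => rw [zero_smul, pow_zero]; exact hone
    | succ n ih => rw [succ_nsmul, pow_succ]; exact hmul _ _ _ _ ih hy
  have hzpow : ∀ d y, H d y → y ≠ 0 → ∀ n : ℤ, H (n • d) (y ^ n) := by
    intro d y hy h0 n
    cases n with
    | ofNat n => rw [Int.ofNat_eq_natCast, natCast_zsmul, zpow_natCast]; exact hpow _ _ hy n
    | negSucc n =>
      rw [negSucc_zsmul, zpow_negSucc]
      exact hinv _ _ (hpow _ _ hy (n + 1)) (pow_ne_zero _ h0)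
  have hprod : ∀ {σ : Type} (s : Finset σ) (d : σ → (Fin r → ℤ)) (y : σ → K),
      (∀ i ∈ s, H (d i) (y i)) → H (∑ i ∈ s, d i) (∏ i ∈ s, y i) := by
    intro σ s d y h
    induction s using Finset.induction_on with
    | empty => rw [Finset.sum_empty, Finset.prod_empty]; exact hone
    | insert i s hi ih =>
      rw [Finset.sum_insert hi, Finset.prod_insert hi]
      exact hmul _ _ _ _ (h i (Finset.mem_insert_self _ _))
        (ih fun j hj => h j (Finset.mem_insert_of_mem hj))
  -- Laurent monomials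
  have hLM : ∀ e : Fin m → ℤ, H (∑ i, e i • d i) (∏ i, x i ^ e i) := fun e =>
    hprod Finset.univ _ _ fun i _ => hzpow _ _ (hxH i) (hx0 i) _
  have hLM0 : ∀ e : Fin m → ℤ, ∏ i, x i ^ e i ≠ 0 := fun e =>
    Finset.prod_ne_zero_iff.2 fun i _ => zpow_ne_zero _ (hx0 i)
  let L : Submodule ℤ (Fin r → ℤ) := Submodule.span ℤ (Set.range d)
  obtain ⟨n, bL⟩ := Submodule.basisOfPid (Pi.basisFun ℤ (Fin r)) L
  have hL : ∀ l ∈ L, ∃ e : Fin m → ℤ, ∑ i, e i • d i = l := fun l hl =>
    (Submodule.mem_span_range_iff_exists_fun ℤ).1 hl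
  choose ez hez using fun j : Fin n => hL (bL j : Fin r → ℤ) (bL j).2
  let z : Fin n → K := fun j => ∏ i, x i ^ ez j i
  have hz : ∀ j, H (bL j : Fin r → ℤ) (z j) := by
    intro j
    have h := hLM (ez j)
    rw [hez] at h
    exact h
  have hz0 : ∀ j, z j ≠ 0 := fun j => hLM0 _
  have hdL : ∀ i, d i ∈ L := fun i => Submodule.subset_span ⟨i, rfl⟩
  let c : Fin m → Fin n → ℤ := fun i j => bL.repr ⟨d i, hdL i⟩ j
  have hc : ∀ i, ∑ j, c i j • (bL j : Fin r → ℤ) = d i := by
    intro i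
    have h1 := bL.sum_repr ⟨d i, hdL i⟩
    have h2 : ((∑ j, c i j • bL j : L) : Fin r → ℤ) = d i :=
      congrArg (Subtype.val : L → (Fin r → ℤ)) h1
    rw [AddSubmonoidClass.coe_finsetSum] at h2
    exact h2
  -- the exponents of the invariant factors
  let E : Fin m → Fin m → ℤ := fun i i' => Pi.single (M := fun _ => ℤ) i 1 i' -
    ∑ j, c i j * ez j i'
  have hEval : ∀ i, ∏ i', x i' ^ E i i' = x i * (∏ j, z j ^ c i j)⁻¹ := by
    intro i
    have e1 : ∏ i', x i' ^ E i i' =
        (∏ i', x i' ^ (Pi.single (M := fun _ => ℤ) i 1 i')) *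
          (∏ i', x i' ^ (∑ j, c i j * ez j i'))⁻¹ := by
      rw [← Finset.prod_inv_distrib, ← Finset.prod_mul_distrib]
      refine Finset.prod_congr rfl fun i' _ => ?_
      rw [← zpow_neg, ← zpow_add₀ (hx0 i')]
      congr 1
    rw [e1]
    congr 1
    · rw [Finset.prod_eq_single i]
      · rw [Pi.single_eq_same, zpow_one]
      · intro j _ hj
        rw [Pi.single_eq_of_ne hj, zpow_zero]
      · intro h
        exact absurd (Finset.mem_univ _) h
    · congr 1
      calc ∏ i', x i' ^ (∑ j, c i j * ez j i')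
          = ∏ i', ∏ j, (x i' ^ ez j i') ^ c i j := by
            refine Finset.prod_congr rfl fun i' _ => ?_
            rw [Finset.prod_congr rfl fun j _ => (zpow_mul (x i') (ez j i') (c i j)).symm]
            have : ∀ (s : Finset (Fin n)) (f : Fin n → ℤ),
                x i' ^ (∑ j ∈ s, f j) = ∏ j ∈ s, x i' ^ f j := by
              intro s f
              induction s using Finset.induction_on with
              | empty => simp
              | insert a s ha ih =>
                rw [Finset.sum_insert ha, Finset.prod_insert ha, zpow_add₀ (hx0 i'), ih]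
            rw [this]
            refine Finset.prod_congr rfl fun j _ => ?_
            rw [mul_comm]
        _ = ∏ j, ∏ i', (x i' ^ ez j i') ^ c i j := Finset.prod_comm
        _ = ∏ j, z j ^ c i j := by
            refine Finset.prod_congr rfl fun j _ => ?_
            rw [Finset.prod_zpow]
  have hEsum : ∀ i, ∑ i', E i i' • d i' = 0 := by
    intro i
    have e1 : ∑ i', E i i' • d i' = ∑ i', (Pi.single (M := fun _ => ℤ) i 1 i') • d i' -
        ∑ i', (∑ j, c i j * ez j i') • d i' := by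
      rw [← Finset.sum_sub_distrib]
      exact Finset.sum_congr rfl fun i' _ => sub_smul _ _ _
    have e2 : ∑ i', (Pi.single (M := fun _ => ℤ) i 1 i') • d i' = d i := by
      rw [Finset.sum_eq_single i]
      · rw [Pi.single_eq_same, one_smul]
      · intro j _ hj
        rw [Pi.single_eq_of_ne hj, zero_smul]
      · intro h
        exact absurd (Finset.mem_univ _) h
    have e3 : ∑ i', (∑ j, c i j * ez j i') • d i' = d i := by
      calc ∑ i', (∑ j, c i j * ez j i') • d i'
          = ∑ i', ∑ j, c i j • (ez j i' • d i') := by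
            refine Finset.sum_congr rfl fun i' _ => ?_
            rw [Finset.sum_smul]
            exact Finset.sum_congr rfl fun j _ => mul_smul _ _ _
        _ = ∑ j, ∑ i', c i j • (ez j i' • d i') := Finset.sum_comm
        _ = ∑ j, c i j • (bL j : Fin r → ℤ) := by
            refine Finset.sum_congr rfl fun j _ => ?_
            rw [← Finset.smul_sum, hez]
        _ = d i := hc i
    rw [e1, e2, e3, sub_self]
  have hh : ∀ i, x i * (∏ j, z j ^ c i j)⁻¹ ∈ F := by
    intro i
    apply hF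
    rw [← hEval i, ← hEsum i]
    exact hLM (E i)
  have hhP : ∀ i, (⟨_, hh i⟩ : F) ∈ P := fun i => hmono (E i) (hEsum i) _ (hEval i).symm
  -- independence
  have hzind : AlgebraicIndependent F z :=
    hind n z (fun j => (bL j : Fin r → ℤ))
      (bL.linearIndependent.map' L.subtype (Submodule.ker_subtype L)) hz hz0
  have hbmem : ∀ i, x i ∈ IntermediateField.adjoin F (Set.range z) := by
    intro i
    have e1 : x i = algebraMap F K ⟨_, hh i⟩ * ∏ j, z j ^ c i j := by
      change x i = x i * (∏ j, z j ^ c i j)⁻¹ * ∏ j, z j ^ c i j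
      rw [inv_mul_cancel_right₀]
      exact Finset.prod_ne_zero_iff.2 fun j _ => zpow_ne_zero _ (hz0 j)
    rw [e1]
    refine mul_mem (IntermediateField.algebraMap_mem _ _) (prod_mem fun j _ => zpow_mem ?_ _)
    exact IntermediateField.subset_adjoin _ _ ⟨j, rfl⟩
  have htop : IntermediateField.adjoin F (Set.range z) = ⊤ := by
    rw [eq_top_iff, ← hxtop, IntermediateField.adjoin_le_iff]
    rintro _ ⟨i, rfl⟩
    exact hbmem i
  -- models
  have hP1 : Mod k (P ∪ Set.range (algebraMap k F)) := by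
    refine mod_sat hP ?_
    rintro y (hy | ⟨a, rfl⟩) h0
    · exact ⟨1, one_ne_zero, 1, 1, fun _ => y, fun _ => 1, fun _ => hy, by simp⟩
    · exact ⟨1, one_ne_zero, a, 0, fun i => i.elim0, fun i => i.elim0, fun i => i.elim0, by simp⟩
  have hP2 := mod_tower p n (K := K) _ hP1 (Or.inr ⟨1, map_one _⟩)
    (Or.inr ⟨-1, by rw [map_neg, map_one]⟩) z hzind htop
  refine mod_sat hP2 ?_
  rintro _ ⟨i, rfl⟩ _
  refine ⟨1, one_ne_zero, 1, n + 1, Fin.cons (x i * (∏ j, z j ^ c i j)⁻¹) z,
    Fin.cons 1 (c i), ?_, ?_⟩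
  · intro j
    refine Fin.cases ?_ (fun j => ?_) j
    · rw [Fin.cons_zero]
      exact Or.inl ⟨⟨_, hh i⟩, Or.inl (hhP i), rfl⟩
    · rw [Fin.cons_succ]
      exact Or.inr ⟨j, rfl⟩
  · rw [Fin.prod_univ_succ]
    simp only [Fin.cons_zero, Fin.cons_succ, pow_one, map_one, one_mul, zpow_one]
    rw [inv_mul_cancel_right₀]
    exact Finset.prod_ne_zero_iff.2 fun j _ => zpow_ne_zero _ (hz0 j)

section graded

variable {k A K : Type} [Field k] [CommRing A] [IsDomain A] [Algebra k A] [Field K] [Algebra k K]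
  [Algebra A K] [IsScalarTower k A K] [IsFractionRing A K] {r : ℕ}
  {𝒜 : (Fin r → ℤ) → Submodule k A} [GradedAlgebra 𝒜]

variable (K) (𝒜) in
/-- Homogeneous fractions of degree `d`. -/
def GF (d : Fin r → ℤ) (x : K) : Prop :=
  ∃ e, ∃ a ∈ 𝒜 (d + e), ∃ b ∈ 𝒜 e, b ≠ 0 ∧ x = algebraMap A K a / algebraMap A K b

omit [IsScalarTower k A K] [Algebra k K] [Algebra k A] [Field k] in
theorem am_ne' {b : A} (hb : b ≠ 0) : algebraMap A K b ≠ 0 := fun h =>
  hb (IsFractionRing.injective A K (h.trans (map_zero _).symm))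

theorem GF.mul {d d' : Fin r → ℤ} {x y : K} (hx : GF K 𝒜 d x) (hy : GF K 𝒜 d' y) :
    GF K 𝒜 (d + d') (x * y) := by
  obtain ⟨e, a, ha, b, hb, hb0, rfl⟩ := hx
  obtain ⟨e', a', ha', b', hb', hb0', rfl⟩ := hy
  refine ⟨e + e', a * a', ?_, b * b', SetLike.mul_mem_graded hb hb', mul_ne_zero hb0 hb0', ?_⟩
  · have h := SetLike.mul_mem_graded (A := 𝒜) ha ha'
    have e1 : d + d' + (e + e') = d + e + (d' + e') := by abel
    rw [e1]; exact h
  · rw [map_mul, map_mul, div_mul_div_comm]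

theorem GF.inv {d : Fin r → ℤ} {x : K} (hx : GF K 𝒜 d x) (h0 : x ≠ 0) :
    GF K 𝒜 (-d) x⁻¹ := by
  obtain ⟨e, a, ha, b, hb, hb0, rfl⟩ := hx
  have ha0 : a ≠ 0 := by
    rintro rfl
    exact h0 (by rw [map_zero, zero_div])
  refine ⟨d + e, b, ?_, a, ha, ha0, by rw [inv_div]⟩
  have e1 : -d + (d + e) = e := by abel
  rw [e1]; exact hb

theorem GF.one : GF K 𝒜 0 (1 : K) :=
  ⟨0, 1, by rw [add_zero]; exact SetLike.one_mem_graded 𝒜, 1, SetLike.one_mem_graded 𝒜, one_ne_zero,
    by rw [map_one, div_one]⟩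

theorem GF.of_mem {d : Fin r → ℤ} {a : A} (ha : a ∈ 𝒜 d) :
    GF K 𝒜 d (algebraMap A K a) :=
  ⟨0, a, by rw [add_zero]; exact ha, 1, SetLike.one_mem_graded 𝒜, one_ne_zero,
    by rw [map_one, div_one]⟩

theorem GF.pow {d : Fin r → ℤ} {x : K} (hx : GF K 𝒜 d x) (n : ℕ) :
    GF K 𝒜 (n • d) (x ^ n) := by
  induction n with
  | zero => rw [zero_smul, pow_zero]; exact GF.one
  | succ n ih => rw [succ_nsmul, pow_succ]; exact ih.mul hx

theorem GF.prod {σ : Type*} (s : Finset σ) (d : σ → (Fin r → ℤ)) (x : σ → K)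
    (h : ∀ i ∈ s, GF K 𝒜 (d i) (x i)) : GF K 𝒜 (∑ i ∈ s, d i) (∏ i ∈ s, x i) := by
  classical
  induction s using Finset.induction_on with
  | empty => rw [Finset.sum_empty, Finset.prod_empty]; exact GF.one
  | insert i s hi ih =>
    rw [Finset.sum_insert hi, Finset.prod_insert hi]
    exact (h i (Finset.mem_insert_self _ _)).mul
      (ih fun j hj => h j (Finset.mem_insert_of_mem hj))

/-- A common denominator. -/
theorem gcommon {σ : Type*} (s : Finset σ) (d : σ → (Fin r → ℤ)) (x : σ → K)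
    (h : ∀ i ∈ s, GF K 𝒜 (d i) (x i)) :
    ∃ e, ∃ b ∈ 𝒜 e, b ≠ 0 ∧ ∀ i ∈ s, ∃ c ∈ 𝒜 (d i + e),
      algebraMap A K b * x i = algebraMap A K c := by
  classical
  induction s using Finset.induction_on with
  | empty => exact ⟨0, 1, SetLike.one_mem_graded 𝒜, one_ne_zero, by simp⟩
  | insert i s hi ih =>
    obtain ⟨e, b, hb, hb0, hs⟩ := ih fun j hj => h j (Finset.mem_insert_of_mem hj)
    obtain ⟨e', a', ha', b', hb', hb0', hx⟩ := h i (Finset.mem_insert_self _ _)
    refine ⟨e + e', b * b', SetLike.mul_mem_graded hb hb', mul_ne_zero hb0 hb0', ?_⟩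
    intro j hj
    rcases Finset.mem_insert.1 hj with rfl | hj
    · refine ⟨b * a', ?_, ?_⟩
      · have h1 := SetLike.mul_mem_graded (A := 𝒜) hb ha'
        have e1 : d j + (e + e') = e + (d j + e') := by abel
        rw [e1]; exact h1
      · rw [hx, map_mul, map_mul, mul_assoc, mul_div_cancel₀ _ (am_ne' hb0')]
    · obtain ⟨c, hc, hc'⟩ := hs j hj
      refine ⟨c * b', ?_, ?_⟩
      · have h1 := SetLike.mul_mem_graded (A := 𝒜) hc hb'
        rw [← add_assoc]; exact h1
      · rw [map_mul, map_mul, ← hc']; ring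

/-- A vanishing sum of homogeneous elements of distinct degrees. -/
theorem gsum_zero {σ : Type*} (s : Finset σ) (d : σ → (Fin r → ℤ)) (c : σ → A)
    (hd : Set.InjOn d s) (h : ∀ i ∈ s, c i ∈ 𝒜 (d i)) (h0 : ∑ i ∈ s, c i = 0) :
    ∀ i ∈ s, c i = 0 := by
  classical
  intro i hi
  have h1 : ((DirectSum.decompose 𝒜 (∑ j ∈ s, c j)) (d i) : A) = c i := by
    rw [DirectSum.decompose_sum, DFinsupp.finsetSum_apply, AddSubmonoidClass.coe_finsetSum,
      Finset.sum_eq_single i]
    · rw [DirectSum.decompose_of_mem 𝒜 (h i hi), DirectSum.of_eq_same]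
    · intro j hj hji
      rw [DirectSum.decompose_of_mem 𝒜 (h j hj), DirectSum.of_eq_of_ne]
      · rfl
      · exact fun e => hji (hd hj hi e.symm)
    · intro hi'; exact absurd hi hi'
  rw [h0] at h1
  rw [← h1, DirectSum.decompose_zero]
  rfl

theorem GF_sum_zero {σ : Type*} (s : Finset σ) (d : σ → (Fin r → ℤ)) (x : σ → K)
    (hd : Set.InjOn d s) (h : ∀ i ∈ s, GF K 𝒜 (d i) (x i)) (h0 : ∑ i ∈ s, x i = 0) :
    ∀ i ∈ s, x i = 0 := by
  classical
  obtain ⟨e, b, hb, hb0, hs⟩ := gcommon s d x h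
  choose! c hc hc' using hs
  have h1 : ∑ i ∈ s, c i = 0 := by
    apply IsFractionRing.injective A K
    rw [map_sum, map_zero, ← Finset.sum_congr rfl hc', ← Finset.mul_sum, h0, mul_zero]
  have h2 := gsum_zero s (fun i => d i + e) c (fun i hi j hj hij => hd hi hj (add_right_cancel hij))
    hc h1
  intro i hi
  have h3 := hc' i hi
  rw [h2 i hi, map_zero] at h3
  exact (mul_eq_zero.1 h3).resolve_left (am_ne' hb0)

theorem galgInd {n : ℕ} (F : IntermediateField k K) (hF : ∀ x, x ∈ F → GF K 𝒜 0 x)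
    (z : Fin n → K) (l : Fin n → (Fin r → ℤ))
    (hl : LinearIndependent ℤ l) (hz : ∀ j, GF K 𝒜 (l j) (z j)) (hz0 : ∀ j, z j ≠ 0) :
    AlgebraicIndependent F z := by
  classical
  rw [algebraicIndependent_iff]
  intro p hp
  rw [MvPolynomial.aeval_def, MvPolynomial.eval₂_eq] at hp
  have h1 := GF_sum_zero (𝒜 := 𝒜) p.support (fun m => ∑ j, (m j : ℤ) • l j)
    (fun m => algebraMap F K (p.coeff m) * ∏ i ∈ m.support, z i ^ m i) ?_ ?_ hp
  · refine MvPolynomial.ext _ _ fun m => ?_
    rw [MvPolynomial.coeff_zero]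
    by_contra hm
    have h2 := h1 m (MvPolynomial.mem_support_iff.2 hm)
    rcases mul_eq_zero.1 h2 with h3 | h3
    · exact hm ((map_eq_zero (algebraMap F K)).1 h3)
    · obtain ⟨i, hi, h4⟩ := Finset.prod_eq_zero_iff.1 h3
      exact pow_ne_zero _ (hz0 i) h4
  · intro m hm m' hm' he
    have h3 : ∑ j, ((m j : ℤ) - (m' j : ℤ)) • l j = 0 := by
      simp only [sub_smul, Finset.sum_sub_distrib]
      exact sub_eq_zero.2 he
    have h4 := Fintype.linearIndependent_iff.1 hl _ h3
    ext j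
    have := h4 j
    omega
  · intro m hm
    have e1 : ∏ i ∈ m.support, z i ^ m i = ∏ i, z i ^ m i := by
      apply Finset.prod_subset (Finset.subset_univ _)
      intro i _ hi
      rw [Finsupp.notMem_support_iff.1 hi, pow_zero]
    rw [e1]
    have h5 := hF _ (p.coeff m).2
    have h6 := GF.prod (𝒜 := 𝒜) Finset.univ (fun j => (m j : ℤ) • l j)
      (fun j => z j ^ m j) (by
        intro j _
        have := (hz j).pow (m j)
        rw [natCast_zsmul]; exact this)
    have h7 := h5.mul h6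
    rw [zero_add] at h7
    exact h7

/-- Homogeneous generators. -/
theorem exists_gens [Algebra.FiniteType k A] :
    ∃ (m : ℕ) (b : Fin m → A) (w : Fin m → (Fin r → ℤ)), (∀ i, b i ∈ 𝒜 (w i)) ∧ (∀ i, b i ≠ 0) ∧
      Algebra.adjoin k (Set.range b) = ⊤ := by
  classical
  obtain ⟨S, hS⟩ := (inferInstance : Algebra.FiniteType k A)
  let G : Finset A := S.biUnion fun s => (DirectSum.decompose 𝒜 s).support.image
      fun d => ((DirectSum.decompose 𝒜 s) d : A)
  have hmem : ∀ g ∈ G, g ≠ 0 ∧ ∃ d, g ∈ 𝒜 d := by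
    intro g hg
    obtain ⟨s, hs, hg⟩ := Finset.mem_biUnion.1 hg
    obtain ⟨d, hd, rfl⟩ := Finset.mem_image.1 hg
    refine ⟨?_, d, SetLike.coe_mem _⟩
    intro h0
    rw [DFinsupp.mem_support_iff] at hd
    exact hd (Subtype.ext h0)
  have hsp : Algebra.adjoin k (G : Set A) = ⊤ := by
    rw [eq_top_iff, ← hS]
    apply Algebra.adjoin_le
    intro s hs
    rw [SetLike.mem_coe, ← DirectSum.sum_support_decompose 𝒜 s]
    apply Subalgebra.sum_mem
    intro d hd
    apply Algebra.subset_adjoin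
    rw [Finset.mem_coe, Finset.mem_biUnion]
    exact ⟨s, hs, Finset.mem_image.2 ⟨d, hd, rfl⟩⟩
  let b : Fin G.card → A := fun i => (G.equivFin.symm i : A)
  have hrange : Set.range b = (G : Set A) := by
    ext x
    constructor
    · rintro ⟨i, rfl⟩
      exact (G.equivFin.symm i).2
    · intro hx
      exact ⟨G.equivFin ⟨x, hx⟩, by simp [b]⟩
  choose w hw using fun i : Fin G.card => (hmem _ (G.equivFin.symm i).2).2
  exact ⟨G.card, b, w, hw, fun i => (hmem _ (G.equivFin.symm i).2).1, by rw [hrange]; exact hsp⟩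

end graded

end Pool.Agent.Run7.h360.TA
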