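import Pool.Agent.Run7.h360.TA.Adic

/-!
# Torus actions on affine schemes over a base ring: semi-invariant rational functions
-/

set_option autoImplicit false

universe u

open MvPolynomial

namespace Pool.Agent.Run7.h360.TA.Aff

section si

variable {K : Type u} [Field K] (O : Subring K) {m r : ℕ} (z : Fin m → K) (w : Fin m → (Fin r → ℤ))

/-- `x` is a semi-invariant rational function of weight `d`. -/
def SI (d : Fin r → ℤ) (x : K) : Prop :=
  ∃ (e : Fin r → ℤ) (F G : MvPolynomial (Fin m) O),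
    IsWeightedHomogeneous w F (d + e) ∧ IsWeightedHomogeneous w G e ∧ aeval z G ≠ 0 ∧
      x = aeval z F / aeval z G

/-- The ideal of the relations is graded by the weights. -/
def Act : Prop :=
  ∀ F : MvPolynomial (Fin m) O, aeval z F = 0 → ∀ d, aeval z (weightedHomogeneousComponent w d F) = 0

variable {O z w}

theorem SI.mul {d d' : Fin r → ℤ} {x y : K} (hx : SI O z w d x) (hy : SI O z w d' y) :
    SI O z w (d + d') (x * y) := by
  obtain ⟨e, F, G, h3, h4, h5, rfl⟩ := hx
  obtain ⟨e', F', G', h3', h4', h5', rfl⟩ := hy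
  refine ⟨e + e', F * F', G * G', ?_, h4.mul h4', ?_, ?_⟩
  · have h := h3.mul h3'
    have e1 : d + d' + (e + e') = d + e + (d' + e') := by abel
    rw [e1]; exact h
  · rw [map_mul]; exact mul_ne_zero h5 h5'
  · rw [map_mul, map_mul, div_mul_div_comm]

theorem SI.inv {d : Fin r → ℤ} {x : K} (hx : SI O z w d x) (h0 : x ≠ 0) : SI O z w (-d) x⁻¹ := by
  obtain ⟨e, F, G, h3, h4, h5, rfl⟩ := hx
  refine ⟨d + e, G, F, ?_, h3, ?_, by rw [inv_div]⟩
  · have e1 : -d + (d + e) = e := by abel
    rw [e1]; exact h4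
  · intro h
    exact h0 (by rw [h, zero_div])

theorem SI.one : SI O z w 0 (1 : K) :=
  ⟨0, 1, 1, by
    rw [add_zero]; exact isWeightedHomogeneous_one _ _, isWeightedHomogeneous_one _ _, by
    rw [map_one]; exact one_ne_zero, by rw [map_one, div_one]⟩

theorem SI.const (a : O) : SI O z w 0 (a : K) :=
  ⟨0, C a, 1, by
    rw [add_zero]; exact isWeightedHomogeneous_C _ _, isWeightedHomogeneous_one _ _, by
    rw [map_one]; exact one_ne_zero, by rw [map_one, div_one, aeval_C]; rfl⟩

theorem SI.add {d : Fin r → ℤ} {x y : K} (hx : SI O z w d x) (hy : SI O z w d y) :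
    SI O z w d (x + y) := by
  obtain ⟨e, F, G, h3, h4, h5, rfl⟩ := hx
  obtain ⟨e', F', G', h3', h4', h5', rfl⟩ := hy
  refine ⟨e + e', F * G' + G * F', G * G', ?_, h4.mul h4', ?_, ?_⟩
  · have h := h3.mul h4'
    have h' := h4.mul h3'
    have e1 : d + (e + e') = d + e + e' := by abel
    have e2 : d + (e + e') = e + (d + e') := by abel
    refine IsWeightedHomogeneous.add ?_ ?_
    · rw [e1]; exact h
    · rw [e2]; exact h'
  · rw [map_mul]; exact mul_ne_zero h5 h5'
  · rw [map_mul, map_add, map_mul, map_mul, div_add_div _ _ h5 h5']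

theorem SI.neg {d : Fin r → ℤ} {x : K} (hx : SI O z w d x) : SI O z w d (-x) := by
  obtain ⟨e, F, G, h3, h4, h5, rfl⟩ := hx
  exact ⟨e, -F, G, h3.neg, h4, h5, by rw [map_neg, neg_div]⟩

theorem SI.zero' (d : Fin r → ℤ) : SI O z w d (0 : K) :=
  ⟨0, 0, 1, isWeightedHomogeneous_zero _ _ _,
    isWeightedHomogeneous_one _ _, by rw [map_one]; exact one_ne_zero, by rw [map_zero, zero_div]⟩

theorem SI.pow {d : Fin r → ℤ} {x : K} (hx : SI O z w d x) (n : ℕ) : SI O z w (n • d) (x ^ n) := by
  induction n with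
  | zero => rw [zero_smul, pow_zero]; exact SI.one
  | succ n ih => rw [succ_nsmul, pow_succ]; exact ih.mul hx

theorem SI.zpow {d : Fin r → ℤ} {x : K} (hx : SI O z w d x) (h0 : x ≠ 0) (n : ℤ) :
    SI O z w (n • d) (x ^ n) := by
  cases n with
  | ofNat n => rw [Int.ofNat_eq_natCast, natCast_zsmul, zpow_natCast]; exact hx.pow n
  | negSucc n =>
    rw [negSucc_zsmul, zpow_negSucc]
    exact (hx.pow (n + 1)).inv (pow_ne_zero _ h0)

theorem SI.prod {σ : Type*} (s : Finset σ) (d : σ → (Fin r → ℤ)) (x : σ → K)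
    (h : ∀ i ∈ s, SI O z w (d i) (x i)) : SI O z w (∑ i ∈ s, d i) (∏ i ∈ s, x i) := by
  classical
  induction s using Finset.induction_on with
  | empty => rw [Finset.sum_empty, Finset.prod_empty]; exact SI.one
  | insert i s hi ih =>
    rw [Finset.sum_insert hi, Finset.prod_insert hi]
    exact (h i (Finset.mem_insert_self _ _)).mul (ih fun j hj => h j (Finset.mem_insert_of_mem hj))

/-- A common denominator. -/
theorem common {σ : Type*} (s : Finset σ) (d : σ → (Fin r → ℤ)) (x : σ → K)
    (h : ∀ i ∈ s, SI O z w (d i) (x i)) :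
    ∃ (e : Fin r → ℤ) (G : MvPolynomial (Fin m) O),
      IsWeightedHomogeneous w G e ∧ aeval z G ≠ 0 ∧ ∀ i ∈ s, ∃ F : MvPolynomial (Fin m) O,
        IsWeightedHomogeneous w F (d i + e) ∧ aeval z G * x i = aeval z F := by
  classical
  induction s using Finset.induction_on with
  | empty =>
    exact ⟨0, 1, isWeightedHomogeneous_one _ _, by
      rw [map_one]; exact one_ne_zero, by simp⟩
  | insert i s hi ih =>
    obtain ⟨e, G, h2, h3, hs⟩ := ih fun j hj => h j (Finset.mem_insert_of_mem hj)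
    obtain ⟨e', F', G', h3', h4', h5', hx⟩ := h i (Finset.mem_insert_self _ _)
    refine ⟨e + e', G * G', h2.mul h4', by rw [map_mul]; exact mul_ne_zero h3 h5', ?_⟩
    intro j hj
    rcases Finset.mem_insert.1 hj with rfl | hj
    · refine ⟨G * F', ?_, ?_⟩
      · have h := h2.mul h3'
        have e1 : d j + (e + e') = e + (d j + e') := by abel
        rw [e1]; exact h
      · rw [hx, map_mul, map_mul, mul_assoc, mul_div_cancel₀ _ h5']
    · obtain ⟨F, hF2, hF3⟩ := hs j hj
      refine ⟨F * G', ?_, ?_⟩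
      · have h := hF2.mul h4'
        rw [← add_assoc]; exact h
      · rw [map_mul, map_mul, ← hF3]; ring

theorem sum_zero (hact : Act O z w) {σ : Type*} (s : Finset σ) (d : σ → (Fin r → ℤ)) (x : σ → K)
    (hd : Set.InjOn d s) (h : ∀ i ∈ s, SI O z w (d i) (x i)) (h0 : ∑ i ∈ s, x i = 0) :
    ∀ i ∈ s, x i = 0 := by
  classical
  obtain ⟨e, G, h2, h3, hs⟩ := common s d x h
  choose! F hF2 hF3 using hs
  have h4 : aeval z (∑ i ∈ s, F i) = 0 := by
    rw [map_sum, ← Finset.sum_congr rfl hF3, ← Finset.mul_sum, h0, mul_zero]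
  intro i hi
  have h6 := hact _ h4 (d i + e)
  have h7 : weightedHomogeneousComponent w (d i + e) (∑ j ∈ s, F j) = F i := by
    rw [map_sum, Finset.sum_eq_single i]
    · exact (hF2 i hi).weightedHomogeneousComponent_same
    · intro j hj hji
      refine (hF2 j hj).weightedHomogeneousComponent_ne _ fun he => ?_
      exact hji (hd hi hj (add_right_cancel he)).symm
    · exact fun hi' => absurd hi hi'
  rw [h7, ← hF3 i hi] at h6
  exact (mul_eq_zero.1 h6).resolve_left h3

variable (O z w) in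
/-- The field of the invariant rational functions. -/
def invField : Subfield K where
  carrier := {x | SI O z w 0 x}
  mul_mem' {x y} hx hy := by
    have h := SI.mul hx hy
    rw [add_zero] at h
    exact h
  one_mem' := SI.one
  add_mem' hx hy := SI.add hx hy
  zero_mem' := SI.zero' 0
  neg_mem' hx := SI.neg hx
  inv_mem' x hx := by
    by_cases h0 : x = 0
    · rw [h0, inv_zero]; exact SI.zero' 0
    · have h := SI.inv hx h0
      rw [neg_zero] at h
      exact h

theorem algInd (hact : Act O z w) {n : ℕ} (x : Fin n → K) (l : Fin n → (Fin r → ℤ))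
    (hl : LinearIndependent ℤ l) (hx : ∀ j, SI O z w (l j) (x j)) (hx0 : ∀ j, x j ≠ 0) :
    AlgebraicIndependent (invField O z w) x := by
  classical
  rw [algebraicIndependent_iff]
  intro p hp
  rw [MvPolynomial.aeval_def, MvPolynomial.eval₂_eq] at hp
  have h1 := sum_zero hact p.support (fun s => ∑ j, (s j : ℤ) • l j)
    (fun s => algebraMap (invField O z w) K (p.coeff s) * ∏ i ∈ s.support, x i ^ s i) ?_ ?_ hp
  · refine MvPolynomial.ext _ _ fun s => ?_
    rw [MvPolynomial.coeff_zero]
    by_contra hm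
    have h2 := h1 s (MvPolynomial.mem_support_iff.2 hm)
    rcases mul_eq_zero.1 h2 with h3 | h3
    · exact hm ((map_eq_zero (algebraMap (invField O z w) K)).1 h3)
    · obtain ⟨i, hi, h4⟩ := Finset.prod_eq_zero_iff.1 h3
      exact pow_ne_zero _ (hx0 i) h4
  · intro s hs s' hs' he
    have h3 : ∑ j, ((s j : ℤ) - (s' j : ℤ)) • l j = 0 := by
      simp only [sub_smul, Finset.sum_sub_distrib]
      exact sub_eq_zero.2 he
    have h4 := Fintype.linearIndependent_iff.1 hl _ h3
    ext j
    have := h4 j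
    omega
  · intro s hs
    have e1 : ∏ i ∈ s.support, x i ^ s i = ∏ i, x i ^ s i := by
      apply Finset.prod_subset (Finset.subset_univ _)
      intro i _ hi
      rw [Finsupp.notMem_support_iff.1 hi, pow_zero]
    rw [e1]
    have h5 : SI O z w 0 ((MvPolynomial.coeff s p : invField O z w) : K) := (MvPolynomial.coeff s p).2
    have h6 := SI.prod (O := O) (z := z) (w := w) Finset.univ (fun j => (s j : ℤ) • l j)
      (fun j => x j ^ s j) (by
        intro j _
        have := (hx j).pow (s j)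
        rw [natCast_zsmul]; exact this)
    have h7 := h5.mul h6
    rw [zero_add] at h7
    exact h7

/-- **The structure of the function field.** -/
theorem structure_thm (hact : Act O z w) (hz0 : ∀ i, z i ≠ 0)
    (hK : ∀ y : K, ∃ F G : MvPolynomial (Fin m) O, aeval z G ≠ 0 ∧ y = aeval z F / aeval z G) :
    ∃ (n : ℕ) (x : Fin n → K) (a : Fin m → K) (c : Fin m → Fin n → ℤ) (ez : Fin n → Fin m → ℤ),
      (∀ j, x j = ∏ i, z i ^ ez j i) ∧ (∀ i, a i ∈ invField O z w) ∧ (∀ j, x j ≠ 0) ∧ (∀ i, a i ≠ 0) ∧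
      (∀ i, z i = a i * ∏ j, x j ^ c i j) ∧ (∀ i, a i = z i * ∏ j, x j ^ (-c i j)) ∧
      AlgebraicIndependent (invField O z w) x ∧
      invField O z w = Subfield.closure ((O : Set K) ∪ Set.range a) ∧
      IntermediateField.adjoin (invField O z w) (Set.range x) = ⊤ ∧
      ∀ (l : Fin r → ℤ) (y : K), SI O z w l y → y ≠ 0 →
        ∃ (b : K) (γ : Fin n → ℤ), b ∈ invField O z w ∧ y = b * ∏ j, x j ^ γ j := by
  classical
  let d : Fin m → (Fin r → ℤ) := w
  have hzd : ∀ i, SI O z w (d i) (z i) := by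
    intro i
    refine ⟨0, X i, 1, ?_, isWeightedHomogeneous_one _ _, by rw [map_one]; exact one_ne_zero, by
        rw [aeval_X, map_one, div_one]⟩
    rw [add_zero]
    exact isWeightedHomogeneous_X _ _ _
  have hLM : ∀ e : Fin m → ℤ, SI O z w (∑ i, e i • d i) (∏ i, z i ^ e i) := fun e =>
    SI.prod Finset.univ _ _ fun i _ => (hzd i).zpow (hz0 i) _
  have hLM0 : ∀ e : Fin m → ℤ, ∏ i, z i ^ e i ≠ 0 := fun e =>
    Finset.prod_ne_zero_iff.2 fun i _ => zpow_ne_zero _ (hz0 i)
  let L : Submodule ℤ (Fin r → ℤ) := Submodule.span ℤ (Set.range d)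
  obtain ⟨n, bL⟩ := Submodule.basisOfPid (Pi.basisFun ℤ (Fin r)) L
  have hL : ∀ l ∈ L, ∃ e : Fin m → ℤ, ∑ i, e i • d i = l := fun l hl =>
    (Submodule.mem_span_range_iff_exists_fun ℤ).1 hl
  choose ez hez using fun j : Fin n => hL (bL j : Fin r → ℤ) (bL j).2
  let x : Fin n → K := fun j => ∏ i, z i ^ ez j i
  have hx : ∀ j, SI O z w (bL j : Fin r → ℤ) (x j) := by
    intro j
    have h := hLM (ez j)
    rw [hez] at h
    exact h
  have hx0 : ∀ j, x j ≠ 0 := fun j => hLM0 _
  have hdL : ∀ i, d i ∈ L := fun i => Submodule.subset_span ⟨i, rfl⟩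
  let c : Fin m → Fin n → ℤ := fun i j => bL.repr ⟨d i, hdL i⟩ j
  have hc : ∀ i, ∑ j, c i j • (bL j : Fin r → ℤ) = d i := by
    intro i
    have h1 := bL.sum_repr ⟨d i, hdL i⟩
    have h2 : ((∑ j, c i j • bL j : L) : Fin r → ℤ) = d i :=
      congrArg (Subtype.val : L → (Fin r → ℤ)) h1
    rw [AddSubmonoidClass.coe_finsetSum] at h2
    exact h2
  let a : Fin m → K := fun i => z i * ∏ j, x j ^ (-c i j)
  have hinv : ∀ i, ∏ j, x j ^ (-c i j) = (∏ j, x j ^ c i j)⁻¹ := by
    intro i
    rw [← Finset.prod_inv_distrib]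
    exact Finset.prod_congr rfl fun j _ => zpow_neg _ _
  have hxc0 : ∀ i, ∏ j, x j ^ c i j ≠ 0 := fun i =>
    Finset.prod_ne_zero_iff.2 fun j _ => zpow_ne_zero _ (hx0 j)
  have ha : ∀ i, SI O z w 0 (a i) := by
    intro i
    have h1 := (hzd i).mul (SI.prod (O := O) (z := z) (w := w) Finset.univ _ _ fun j _ =>
      (hx j).zpow (hx0 j) (-c i j))
    have h2 : d i + ∑ j, -c i j • (bL j : Fin r → ℤ) = 0 := by
      simp only [neg_smul, Finset.sum_neg_distrib]
      rw [hc i, add_neg_cancel]
    rw [h2] at h1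
    exact h1
  have ha0 : ∀ i, a i ≠ 0 := by
    intro i
    refine mul_ne_zero (hz0 i) ?_
    rw [hinv]
    exact inv_ne_zero (hxc0 i)
  have hza : ∀ i, z i = a i * ∏ j, x j ^ c i j := by
    intro i
    change z i = (z i * ∏ j, x j ^ (-c i j)) * ∏ j, x j ^ c i j
    rw [hinv, inv_mul_cancel_right₀ (hxc0 i)]
  have hind : AlgebraicIndependent (invField O z w) x :=
    algInd hact x (fun j => (bL j : Fin r → ℤ))
      (bL.linearIndependent.map' L.subtype (Submodule.ker_subtype L)) hx hx0
  have hOE : ∀ b : O, (b : K) ∈ invField O z w := fun b => SI.const b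
  have hEcl : invField O z w = Subfield.closure ((O : Set K) ∪ Set.range a) := by
    refine le_antisymm ?_ ?_
    · intro y hy
      obtain ⟨e, F, G, h3, h4, h5, rfl⟩ := hy
      rw [zero_add] at h3
      -- the exponents of `x`
      have hmon : ∀ s : Fin m →₀ ℕ, ∏ i, z i ^ s i = (∏ i, a i ^ s i) * ∏ j, x j ^ (∑ i, (s i : ℤ) * c i j) := by
        intro s
        rw [← Adic.prod_zpow_sum Finset.univ Finset.univ x hx0 c (fun i => (s i : ℤ)), ← Finset.prod_mul_distrib]
        refine Finset.prod_congr rfl fun i _ => ?_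
        rw [zpow_natCast, ← mul_pow, ← hza]
      have hsum : ∀ s : Fin m →₀ ℕ, ∀ j, ∑ i, (s i : ℤ) * c i j =
          bL.repr (∑ i, (s i : ℤ) • (⟨d i, hdL i⟩ : L)) j := by
        intro s j
        rw [map_sum, Finsupp.finsetSum_apply]
        refine Finset.sum_congr rfl fun i _ => ?_
        rw [map_zsmul, Finsupp.smul_apply, smul_eq_mul]
      have hdeg : ∀ P : MvPolynomial (Fin m) O, IsWeightedHomogeneous w P e →
          ∀ s ∈ P.support, ∑ i, (s i : ℤ) • d i = e := by
        intro P hP2 s hs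
        have h7 := hP2 (mem_support_iff.1 hs)
        rw [← h7, Finsupp.weight_apply, Finsupp.sum_fintype _ _ (fun i => by simp)]
        exact Finset.sum_congr rfl fun i _ => natCast_zsmul _ _
      have hG0 : G ≠ 0 := by
        rintro rfl
        exact h5 (map_zero _)
      obtain ⟨s0, hs0⟩ := support_nonempty.2 hG0
      let γ : Fin n → ℤ := fun j => ∑ i, (s0 i : ℤ) * c i j
      have hexp : ∀ P : MvPolynomial (Fin m) O, IsWeightedHomogeneous w P e →
          ∀ s ∈ P.support, ∀ j, ∑ i, (s i : ℤ) * c i j = γ j := by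
        intro P hP2 s hs j
        change _ = ∑ i, (s0 i : ℤ) * c i j
        rw [hsum, hsum]
        congr 2
        apply Subtype.ext
        rw [AddSubmonoidClass.coe_finsetSum, AddSubmonoidClass.coe_finsetSum]
        exact (hdeg P hP2 s hs).trans (hdeg G h4 s0 hs0).symm
      have hs1 : ∀ b : O, (b : K) ∈ Subfield.closure ((O : Set K) ∪ Set.range a) := fun b =>
        Subfield.subset_closure (Or.inl b.2)
      have hs2 : ∀ i, a i ∈ Subfield.closure ((O : Set K) ∪ Set.range a) := fun i =>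
        Subfield.subset_closure (Or.inr (Set.mem_range_self i))
      have hval : ∀ P : MvPolynomial (Fin m) O, IsWeightedHomogeneous w P e →
          ∃ f ∈ Subfield.closure ((O : Set K) ∪ Set.range a), aeval z P = f * ∏ j, x j ^ γ j := by
        intro P hP2
        refine ⟨∑ s ∈ P.support, ((P.coeff s : O) : K) * ∏ i, a i ^ s i, ?_, ?_⟩
        · exact sum_mem fun s _ => mul_mem (hs1 _) (prod_mem fun i _ => pow_mem (hs2 i) _)
        · rw [aeval_def, eval₂_eq', Finset.sum_mul]
          refine Finset.sum_congr rfl fun s hs => ?_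
          have h10 : ∏ j, x j ^ (∑ i, (s i : ℤ) * c i j) = ∏ j, x j ^ γ j :=
            Finset.prod_congr rfl fun j _ => congrArg (fun t => x j ^ t) (hexp P hP2 s hs j)
          rw [hmon s, h10, mul_assoc]
          rfl
      obtain ⟨f, hf, hf'⟩ := hval F h3
      obtain ⟨g, hg, hg'⟩ := hval G h4
      have hγ0 : ∏ j, x j ^ γ j ≠ 0 := Finset.prod_ne_zero_iff.2 fun j _ => zpow_ne_zero _ (hx0 j)
      rw [hf', hg', mul_div_mul_right _ _ hγ0]
      exact div_mem hf hg
    · rw [Subfield.closure_le]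
      rintro y (hy | ⟨i, rfl⟩)
      · exact hOE ⟨y, hy⟩
      · exact ha i
  refine ⟨n, x, a, c, ez, fun j => rfl, ha, hx0, ha0, hza, fun i => rfl, hind, hEcl, ?_, ?_⟩
  · rw [eq_top_iff]
    intro y _
    have hzm : ∀ i, z i ∈ IntermediateField.adjoin (invField O z w) (Set.range x) := by
      intro i
      rw [hza i]
      refine mul_mem ?_ (prod_mem fun j _ => zpow_mem
        (IntermediateField.subset_adjoin (invField O z w) (Set.range x) (Set.mem_range_self j)) _)
      exact IntermediateField.algebraMap_mem _ (⟨a i, ha i⟩ : invField O z w)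
    have hP : ∀ P : MvPolynomial (Fin m) O, aeval z P ∈
        IntermediateField.adjoin (invField O z w) (Set.range x) := by
      intro P
      rw [aeval_def, eval₂_eq']
      refine sum_mem fun s _ => mul_mem ?_ (prod_mem fun i _ => pow_mem (hzm i) _)
      exact IntermediateField.algebraMap_mem _ (⟨_, hOE (P.coeff s)⟩ : invField O z w)
    obtain ⟨F, G, -, rfl⟩ := hK y
    exact div_mem (hP F) (hP G)
  · intro l y hy hy0
    have hlL : l ∈ L := by
      obtain ⟨e, F, G, h3, h4, h5, rfl⟩ := hy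
      have hsup : ∀ (P : MvPolynomial (Fin m) O) (e : Fin r → ℤ), IsWeightedHomogeneous w P e → P ≠ 0 →
          e ∈ L := by
        intro P e hP hP0
        obtain ⟨s, hs⟩ := support_nonempty.2 hP0
        have h7 := hP (mem_support_iff.1 hs)
        rw [← h7, Finsupp.weight_apply, Finsupp.sum_fintype _ _ (fun i => by simp)]
        exact sum_mem fun i _ => nsmul_mem (hdL i) _
      have hF0 : F ≠ 0 := by
        rintro rfl
        exact hy0 (by rw [map_zero, zero_div])
      have hG0 : G ≠ 0 := by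
        rintro rfl
        exact h5 (map_zero _)
      have h6 := sub_mem (hsup F _ h3 hF0) (hsup G _ h4 hG0)
      rwa [add_sub_cancel_right] at h6
    let γ : Fin n → ℤ := fun j => bL.repr ⟨l, hlL⟩ j
    have hγ : ∑ j, γ j • (bL j : Fin r → ℤ) = l := by
      have h1 := bL.sum_repr ⟨l, hlL⟩
      have h2 : ((∑ j, γ j • bL j : L) : Fin r → ℤ) = l :=
        congrArg (Subtype.val : L → (Fin r → ℤ)) h1
      rw [AddSubmonoidClass.coe_finsetSum] at h2
      exact h2
    have hγ0 : ∏ j, x j ^ γ j ≠ 0 := Finset.prod_ne_zero_iff.2 fun j _ => zpow_ne_zero _ (hx0 j)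
    have h3 : SI O z w l (∏ j, x j ^ γ j) := by
      have h4 := SI.prod (O := O) (z := z) (w := w) Finset.univ _ _ fun j _ => (hx j).zpow (hx0 j) (γ j)
      rw [hγ] at h4
      exact h4
    have h4 := hy.mul (h3.inv hγ0)
    rw [add_neg_cancel] at h4
    exact ⟨y * (∏ j, x j ^ γ j)⁻¹, γ, h4, (inv_mul_cancel_right₀ hγ0 y).symm⟩

end si

end Pool.Agent.Run7.h360.TA.Aff
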