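import Pool.Agent.Results.MP_b525bf_ag.AdmissibleTowers
import Pool.Agent.N98.Tn

/-!
# Adjoining independent elements to the sets of boundary functions
-/

set_option autoImplicit false

open Polynomial Pool.Agent.N762.FP

namespace Pool.Agent.Run7.h360.TA

universe u

theorem mod_mono {k K : Type u} [Field k] [Field K] [Algebra k K] {P Q : Set K} (hP : Mod k P)
    (h : Q ⊆ P) : Mod k Q :=
  fun B _ b hb hb0 => hP B b (fun i => h (hb i)) hb0

/-- One independent element. -/
theorem mod_step {k L K : Type u} [Field k] [Field L] [Field K] [Algebra k L] [Algebra k K]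
    [Algebra L K] [IsScalarTower k L K] {P : Set L} (hP : Mod k P) (h1 : (1 : L) ∈ P)
    (h2 : (-1 : L) ∈ P) (z : K) (hz : Transcendental L z)
    (htop : IntermediateField.adjoin L {z} = ⊤) :
    Mod k (algebraMap L K '' P ∪ {z}) := by
  have h := mod_root hP 1 (by simp) ({1, X} : Set L[X]) ?_ ?_ ?_ ?_ ?_ ?_ z htop (Or.inl hz)
  · refine mod_mono h ?_
    rintro y (hy | hy)
    · exact Or.inl hy
    · refine Or.inr ⟨X, by simp, ?_⟩
      rw [Set.mem_singleton_iff] at hy
      simp [hy]
  · rintro f (rfl | rfl)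
    · exact one_ne_zero
    · exact X_ne_zero
  · rintro f (rfl | rfl)
    · simp
    · simp
  · simp
  · rintro f (rfl | rfl) hf
    · simp at hf
    · simp
  · rintro f (rfl | rfl) hf
    · simpa using h1
    · simp at hf
  · rintro f (rfl | rfl) g hg hf
    · simp at hf
    · rcases hg with rfl | rfl
      · refine ⟨X - C 1, X_sub_C_ne_zero 1, (natDegree_X_sub_C (1 : L)).le, ?_, ?_⟩
        · simp
        · intro n hn
          rw [coeff_sub, coeff_X, coeff_C] at hn ⊢
          rcases n with _ | _ | n
          · simpa using h2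
          · simpa using h1
          · exfalso
            apply hn
            simp
      · refine ⟨X, X_ne_zero, by simp, by simp, ?_⟩
        intro n hn
        rw [coeff_X] at hn ⊢
        by_cases h : 1 = n
        · simpa [h] using h1
        · simp [h] at hn

/-- Several independent elements. -/
theorem mod_tower (p : ℕ) [Fact p.Prime] {k : Type u} [Field k] [CharP k p] :
    ∀ (n : ℕ) {L K : Type u} [Field L] [Field K] [Algebra k L] [Algebra k K] [Algebra L K]
      [IsScalarTower k L K] (P : Set L), Mod k P → (1 : L) ∈ P → (-1 : L) ∈ P →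
      ∀ z : Fin n → K, AlgebraicIndependent L z →
        IntermediateField.adjoin L (Set.range z) = ⊤ →
        Mod k (algebraMap L K '' P ∪ Set.range z) := by
  intro n
  induction n with
  | zero =>
    intro L K _ _ _ _ _ _ P hP h1 h2 z hz htop
    exact mod_rad p hP z (fun j => j.elim0) (fun j => j.elim0) (fun j => j.elim0)
      (fun j => j.elim0) htop
  | succ n ih =>
    intro L K _ _ _ _ _ _ P hP h1 h2 z hz htop
    have h3 := ih P hP h1 h2 (Pool.Agent.N98.tl L z) (Pool.Agent.N98.tl_ind hz)
      (Pool.Agent.N98.tl_top z)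
    have : IsScalarTower k (Pool.Agent.N98.LF (E := L) z) K :=
      IsScalarTower.of_algebraMap_eq fun x => rfl
    have h4 := mod_step (K := K) h3 (Or.inl ⟨1, h1, map_one _⟩)
      (Or.inl ⟨-1, h2, by rw [map_neg, map_one]⟩) (z 0) (Pool.Agent.N98.hd_tr hz)
      (Pool.Agent.N98.hd_top htop)
    refine mod_mono h4 ?_
    rintro y (⟨a, ha, rfl⟩ | ⟨i, rfl⟩)
    · exact Or.inl ⟨_, Or.inl ⟨a, ha, rfl⟩, (IsScalarTower.algebraMap_apply _ _ _ _).symm⟩
    · refine Fin.cases ?_ (fun i => ?_) i
      · exact Or.inr rfl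
      · exact Or.inl ⟨Pool.Agent.N98.tl L z i, Or.inr ⟨i, rfl⟩, rfl⟩

end Pool.Agent.Run7.h360.TA
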