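import Pool.Agent.Run7.h360.TA.Rescale
import Pool.Agent.Run7.h360.TA.Tower

/-!
# Torus actions: the semi-invariant coordinates are boundary functions
-/

set_option autoImplicit false

open Pool.Agent.N762.FP

namespace Pool.Agent.Run7.h360.TA

variable {k S K : Type} [Field k] [CommRing S] [IsDomain S] [Algebra k S] [Field K] [Algebra k K]
  {r : ℕ} {𝒜 : ℕ → Submodule k S} [GradedAlgebra 𝒜] {ℬ : (Fin r → ℤ) → Submodule k S}
  [GradedAlgebra ℬ]

theorem core (p : ℕ) [Fact p.Prime] [CharP k p] (hS : Algebra.adjoin k (𝒜 1 : Set S) = ⊤)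
    (ξ : S →ₐ[k] K) (hinj : ∀ n, ∀ s ∈ 𝒜 n, ξ s = 0 → s = 0)
    (hfr : ∀ z : K, ∃ n, ∃ s ∈ 𝒜 n, ∃ t ∈ 𝒜 n, ξ t ≠ 0 ∧ z = ξ s / ξ t)
    (F : IntermediateField k K) (hF : ∀ x, x ∈ F ↔ HF 𝒜 ℬ ξ 0 x) (P : Set F) (hP : Mod k P)
    {m : ℕ} (b : Fin m → S) (w : Fin m → (Fin r → ℤ)) (i0 : Fin m) (hb : ∀ i, b i ∈ 𝒜 1)
    (hbw : ∀ i, b i ∈ ℬ (w i)) (hb0 : ∀ i, b i ≠ 0)
    (hspan : 𝒜 1 ≤ Submodule.span k (Set.range b)) (h1 : ξ (b i0) = 1)
    (hmono : ∀ e : Fin m → ℤ, ∑ i, e i = 0 → ∑ i, e i • w i = 0 → ∀ y : F,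
      (y : K) = ∏ i, ξ (b i) ^ e i → y ∈ P) :
    Mod k (Set.range fun i => ξ (b i)) := by
  classical
  have hx0 : ∀ i, ξ (b i) ≠ 0 := fun i h => hb0 i (hinj 1 _ (hb i) h)
  let d : Fin m → (Fin r → ℤ) := fun i => w i - w i0
  have hHF : ∀ i, HF 𝒜 ℬ ξ (d i) (ξ (b i)) := by
    intro i
    refine ⟨1, w i0, b i, hb i, b i0, hb i0, ?_, hbw i0, hx0 i0, by rw [h1, div_one]⟩
    have e1 : d i + w i0 = w i := sub_add_cancel _ _
    rw [e1]
    exact hbw i
  -- Laurent monomials
  have hLM : ∀ e : Fin m → ℤ, HF 𝒜 ℬ ξ (∑ i, e i • d i) (∏ i, ξ (b i) ^ e i) := fun e =>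
    HF.prod Finset.univ _ _ fun i _ => (hHF i).zpow (hx0 i) _
  have hLM0 : ∀ e : Fin m → ℤ, ∏ i, ξ (b i) ^ e i ≠ 0 := fun e =>
    Finset.prod_ne_zero_iff.2 fun i _ => zpow_ne_zero _ (hx0 i)
  let L : Submodule ℤ (Fin r → ℤ) := Submodule.span ℤ (Set.range d)
  obtain ⟨n, bL⟩ := Submodule.basisOfPid (Pi.basisFun ℤ (Fin r)) L
  have hL : ∀ l ∈ L, ∃ e : Fin m → ℤ, ∑ i, e i • d i = l := fun l hl =>
    (Submodule.mem_span_range_iff_exists_fun ℤ).1 hl
  choose ez hez using fun j : Fin n => hL (bL j : Fin r → ℤ) (bL j).2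
  let z : Fin n → K := fun j => ∏ i, ξ (b i) ^ ez j i
  have hz : ∀ j, HF 𝒜 ℬ ξ (bL j : Fin r → ℤ) (z j) := by
    intro j
    have h := hLM (ez j)
    rw [hez] at h
    exact h
  have hz0 : ∀ j, z j ≠ 0 := fun j => hLM0 _
  have hdL : ∀ i, d i ∈ L := fun i => Submodule.subset_span ⟨i, rfl⟩
  let c : Fin m → Fin n → ℤ := fun i j => bL.repr ⟨d i, hdL i⟩ j
  have hc : ∀ i, ∑ j, c i j • (bL j : Fin r → ℤ) = d i := by
    intro i
    have h1 := bL.sum_repr ⟨d i, hdL i⟩
    have h2 : ((∑ j, c i j • bL j : L) : Fin r → ℤ) = d i :=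
      congrArg (Subtype.val : L → (Fin r → ℤ)) h1
    rw [AddSubmonoidClass.coe_finsetSum] at h2
    exact h2
  -- the exponents of the invariant factors
  let E : Fin m → Fin m → ℤ := fun i i' => Pi.single (M := fun _ => ℤ) i 1 i' -
    ∑ j, c i j * ez j i'
  have hEval : ∀ i, ∏ i', ξ (b i') ^ E i i' = ξ (b i) * (∏ j, z j ^ c i j)⁻¹ := by
    intro i
    have e1 : ∏ i', ξ (b i') ^ E i i' =
        (∏ i', ξ (b i') ^ (Pi.single (M := fun _ => ℤ) i 1 i')) *
          (∏ i', ξ (b i') ^ (∑ j, c i j * ez j i'))⁻¹ := by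
      rw [← Finset.prod_inv_distrib, ← Finset.prod_mul_distrib]
      refine Finset.prod_congr rfl fun i' _ => ?_
      rw [← zpow_neg, ← zpow_add₀ (hx0 i')]
      congr 1
    rw [e1]
    congr 1
    · rw [Finset.prod_eq_single i]
      · rw [Pi.single_eq_same, zpow_one]
      · intro j _ hj
        rw [Pi.single_eq_of_ne hj, zpow_zero]
      · intro h
        exact absurd (Finset.mem_univ _) h
    · congr 1
      calc ∏ i', ξ (b i') ^ (∑ j, c i j * ez j i')
          = ∏ i', ∏ j, (ξ (b i') ^ ez j i') ^ c i j := by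
            refine Finset.prod_congr rfl fun i' _ => ?_
            rw [Finset.prod_congr rfl fun j _ => (zpow_mul (ξ (b i')) (ez j i') (c i j)).symm]
            have : ∀ (s : Finset (Fin n)) (f : Fin n → ℤ),
                ξ (b i') ^ (∑ j ∈ s, f j) = ∏ j ∈ s, ξ (b i') ^ f j := by
              intro s f
              induction s using Finset.induction_on with
              | empty => simp
              | insert a s ha ih =>
                rw [Finset.sum_insert ha, Finset.prod_insert ha, zpow_add₀ (hx0 i'), ih]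
            rw [this]
            refine Finset.prod_congr rfl fun j _ => ?_
            rw [mul_comm]
        _ = ∏ j, ∏ i', (ξ (b i') ^ ez j i') ^ c i j := Finset.prod_comm
        _ = ∏ j, z j ^ c i j := by
            refine Finset.prod_congr rfl fun j _ => ?_
            rw [Finset.prod_zpow]
  have hEsum : ∀ i, ∑ i', E i i' • d i' = 0 := by
    intro i
    have e1 : ∑ i', E i i' • d i' = ∑ i', (Pi.single (M := fun _ => ℤ) i 1 i') • d i' -
        ∑ i', (∑ j, c i j * ez j i') • d i' := by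
      rw [← Finset.sum_sub_distrib]
      exact Finset.sum_congr rfl fun i' _ => sub_smul _ _ _
    have e2 : ∑ i', (Pi.single (M := fun _ => ℤ) i 1 i') • d i' = d i := by
      rw [Finset.sum_eq_single i]
      · rw [Pi.single_eq_same, one_smul]
      · intro j _ hj
        rw [Pi.single_eq_of_ne hj, zero_smul]
      · intro h
        exact absurd (Finset.mem_univ _) h
    have e3 : ∑ i', (∑ j, c i j * ez j i') • d i' = d i := by
      calc ∑ i', (∑ j, c i j * ez j i') • d i'
          = ∑ i', ∑ j, c i j • (ez j i' • d i') := by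
            refine Finset.sum_congr rfl fun i' _ => ?_
            rw [Finset.sum_smul]
            exact Finset.sum_congr rfl fun j _ => mul_smul _ _ _
        _ = ∑ j, ∑ i', c i j • (ez j i' • d i') := Finset.sum_comm
        _ = ∑ j, c i j • (bL j : Fin r → ℤ) := by
            refine Finset.sum_congr rfl fun j _ => ?_
            rw [← Finset.smul_sum, hez]
        _ = d i := hc i
    rw [e1, e2, e3, sub_self]
  have hh : ∀ i, ξ (b i) * (∏ j, z j ^ c i j)⁻¹ ∈ F := by
    intro i
    rw [hF, ← hEval i, ← hEsum i]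
    exact hLM (E i)
  have hhP : ∀ i, (⟨_, hh i⟩ : F) ∈ P := by
    intro i
    let E' : Fin m → ℤ := fun i' => E i i' - (∑ l, E i l) * Pi.single (M := fun _ => ℤ) i0 1 i'
    have s1 : ∑ i', (Pi.single (M := fun _ => ℤ) i0 1 i' : ℤ) = 1 := by
      rw [Finset.sum_eq_single i0]
      · rw [Pi.single_eq_same]
      · intro j _ hj
        rw [Pi.single_eq_of_ne hj]
      · intro h
        exact absurd (Finset.mem_univ _) h
    have s2 : ∑ i', (Pi.single (M := fun _ => ℤ) i0 1 i' : ℤ) • w i' = w i0 := by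
      rw [Finset.sum_eq_single i0]
      · rw [Pi.single_eq_same, one_smul]
      · intro j _ hj
        rw [Pi.single_eq_of_ne hj, zero_smul]
      · intro h
        exact absurd (Finset.mem_univ _) h
    refine hmono E' ?_ ?_ _ ?_
    · change ∑ i', (E i i' - (∑ l, E i l) * Pi.single (M := fun _ => ℤ) i0 1 i') = 0
      rw [Finset.sum_sub_distrib, ← Finset.mul_sum, s1, mul_one, sub_self]
    · change ∑ i', (E i i' - (∑ l, E i l) * Pi.single (M := fun _ => ℤ) i0 1 i') • w i' = 0
      have e1 : ∀ i', (E i i' - (∑ l, E i l) * Pi.single (M := fun _ => ℤ) i0 1 i') • w i' =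
          E i i' • w i' - (∑ l, E i l) • ((Pi.single (M := fun _ => ℤ) i0 1 i' : ℤ) • w i') :=
        fun i' => by rw [sub_smul, mul_smul]
      rw [Finset.sum_congr rfl fun i' _ => e1 i', Finset.sum_sub_distrib, ← Finset.smul_sum, s2,
        Finset.sum_smul, ← Finset.sum_sub_distrib, ← hEsum i]
      exact Finset.sum_congr rfl fun i' _ => (smul_sub _ _ _).symm
    · change ξ (b i) * (∏ j, z j ^ c i j)⁻¹ = ∏ i', ξ (b i') ^ E' i'
      rw [← hEval i]
      refine Finset.prod_congr rfl fun i' _ => ?_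
      by_cases h : i' = i0
      · subst h
        rw [h1, one_zpow, one_zpow]
      · change _ = ξ (b i') ^ (E i i' - (∑ l, E i l) * Pi.single (M := fun _ => ℤ) i0 1 i')
        rw [Pi.single_eq_of_ne h, mul_zero, sub_zero]
  -- independence
  have hind : AlgebraicIndependent F z := by
    refine algInd (ℬ := ℬ) hinj F (fun x hx => (hF x).1 hx) z
      (fun j => (bL j : Fin r → ℤ)) ?_ hz hz0
    exact bL.linearIndependent.map' L.subtype (Submodule.ker_subtype L)
  have hbmem : ∀ i, ξ (b i) ∈ IntermediateField.adjoin F (Set.range z) := by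
    intro i
    have e1 : ξ (b i) = algebraMap F K ⟨_, hh i⟩ * ∏ j, z j ^ c i j := by
      change ξ (b i) = ξ (b i) * (∏ j, z j ^ c i j)⁻¹ * ∏ j, z j ^ c i j
      rw [inv_mul_cancel_right₀]
      exact Finset.prod_ne_zero_iff.2 fun j _ => zpow_ne_zero _ (hz0 j)
    rw [e1]
    refine mul_mem (IntermediateField.algebraMap_mem _ _) (prod_mem fun j _ => zpow_mem ?_ _)
    exact IntermediateField.subset_adjoin _ _ ⟨j, rfl⟩
  have htop : IntermediateField.adjoin F (Set.range z) = ⊤ := by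
    rw [eq_top_iff]
    intro y _
    have hall : ∀ s : S, ξ s ∈ IntermediateField.adjoin F (Set.range z) := by
      intro s
      have hs : s ∈ Algebra.adjoin k (𝒜 1 : Set S) := by rw [hS]; trivial
      induction hs using Algebra.adjoin_induction with
      | mem x hx =>
        have h3 := hspan hx
        clear hx
        induction h3 using Submodule.span_induction with
        | mem x hx =>
          obtain ⟨i, rfl⟩ := hx
          exact hbmem i
        | zero => rw [map_zero]; exact zero_mem _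
        | add x y _ _ hx' hy' =>
          rw [map_add]
          exact add_mem hx' hy'
        | smul a x _ hx' =>
          rw [map_smul, Algebra.smul_def, IsScalarTower.algebraMap_apply k F K]
          exact mul_mem (IntermediateField.algebraMap_mem _ _) hx'
      | algebraMap a =>
        rw [AlgHom.commutes, IsScalarTower.algebraMap_apply k F K]
        exact IntermediateField.algebraMap_mem _ _
      | add x y _ _ hx hy => rw [map_add]; exact add_mem hx hy
      | mul x y _ _ hx hy => rw [map_mul]; exact mul_mem hx hy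
    obtain ⟨n, s, _, t, _, _, rfl⟩ := hfr y
    exact div_mem (hall s) (hall t)
  -- models
  have hP1 : Mod k (P ∪ Set.range (algebraMap k F)) := by
    refine mod_sat hP ?_
    rintro y (hy | ⟨a, rfl⟩) h0
    · exact ⟨1, one_ne_zero, 1, 1, fun _ => y, fun _ => 1, fun _ => hy, by simp⟩
    · exact ⟨1, one_ne_zero, a, 0, fun i => i.elim0, fun i => i.elim0, fun i => i.elim0, by simp⟩
  have hP2 := mod_tower p n (K := K) _ hP1 (Or.inr ⟨1, map_one _⟩)
    (Or.inr ⟨-1, by rw [map_neg, map_one]⟩) z hind htop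
  refine mod_sat hP2 ?_
  rintro _ ⟨i, rfl⟩ _
  refine ⟨1, one_ne_zero, 1, n + 1, Fin.cons (ξ (b i) * (∏ j, z j ^ c i j)⁻¹) z,
    Fin.cons 1 (c i), ?_, ?_⟩
  · intro j
    refine Fin.cases ?_ (fun j => ?_) j
    · rw [Fin.cons_zero]
      exact Or.inl ⟨⟨_, hh i⟩, Or.inl (hhP i), rfl⟩
    · rw [Fin.cons_succ]
      exact Or.inr ⟨j, rfl⟩
  · rw [Fin.prod_univ_succ]
    simp only [Fin.cons_zero, Fin.cons_succ, pow_one, map_one, one_mul, zpow_one]
    rw [inv_mul_cancel_right₀]
    exact Finset.prod_ne_zero_iff.2 fun j _ => zpow_ne_zero _ (hz0 j)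

end Pool.Agent.Run7.h360.TA
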