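import Mathlib

/-!
# Homogeneous fractions of a weight on the function field of a projective variety
-/

set_option autoImplicit false

namespace Pool.Agent.Run7.h360.TA

variable {k S K : Type} [Field k] [CommRing S] [IsDomain S] [Algebra k S] [Field K] [Algebra k K]
  {r : ℕ} (𝒜 : ℕ → Submodule k S) [GradedAlgebra 𝒜] (ℬ : (Fin r → ℤ) → Submodule k S)
  [GradedAlgebra ℬ] (ξ : S →ₐ[k] K)

/-- Quotients of forms of the same degree with the difference `d` of their weights. -/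
def HF (d : Fin r → ℤ) (x : K) : Prop :=
  ∃ n e, ∃ a ∈ 𝒜 n, ∃ b ∈ 𝒜 n, a ∈ ℬ (d + e) ∧ b ∈ ℬ e ∧ ξ b ≠ 0 ∧ x = ξ a / ξ b

variable {𝒜 ℬ ξ}

theorem HF.mul {d d' : Fin r → ℤ} {x y : K} (hx : HF 𝒜 ℬ ξ d x) (hy : HF 𝒜 ℬ ξ d' y) :
    HF 𝒜 ℬ ξ (d + d') (x * y) := by
  obtain ⟨n, e, a, ha, b, hb, ha', hb', hb0, rfl⟩ := hx
  obtain ⟨m, f, a2, ha2, b2, hb2, ha2', hb2', hb20, rfl⟩ := hy
  refine ⟨n + m, e + f, a * a2, SetLike.mul_mem_graded ha ha2, b * b2,
    SetLike.mul_mem_graded hb hb2, ?_, SetLike.mul_mem_graded hb' hb2', ?_, ?_⟩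
  · have h := SetLike.mul_mem_graded (A := ℬ) ha' ha2'
    have e1 : d + d' + (e + f) = d + e + (d' + f) := by abel
    rw [e1]; exact h
  · rw [map_mul]; exact mul_ne_zero hb0 hb20
  · rw [map_mul, map_mul, div_mul_div_comm]

theorem HF.inv {d : Fin r → ℤ} {x : K} (hx : HF 𝒜 ℬ ξ d x) (h0 : x ≠ 0) :
    HF 𝒜 ℬ ξ (-d) x⁻¹ := by
  obtain ⟨n, e, a, ha, b, hb, ha', hb', hb0, rfl⟩ := hx
  have ha0 : ξ a ≠ 0 := by
    intro h
    exact h0 (by rw [h, zero_div])
  refine ⟨n, d + e, b, hb, a, ha, ?_, ha', ha0, by rw [inv_div]⟩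
  have e1 : -d + (d + e) = e := by abel
  rw [e1]; exact hb'

theorem HF.one : HF 𝒜 ℬ ξ 0 (1 : K) :=
  ⟨0, 0, 1, SetLike.one_mem_graded 𝒜, 1, SetLike.one_mem_graded 𝒜,
    by rw [add_zero]; exact SetLike.one_mem_graded ℬ, SetLike.one_mem_graded ℬ,
    by rw [map_one]; exact one_ne_zero, by rw [map_one, div_one]⟩

theorem HF.pow {d : Fin r → ℤ} {x : K} (hx : HF 𝒜 ℬ ξ d x) (n : ℕ) :
    HF 𝒜 ℬ ξ (n • d) (x ^ n) := by
  induction n with
  | zero => rw [zero_smul, pow_zero]; exact HF.one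
  | succ n ih => rw [succ_nsmul, pow_succ]; exact ih.mul hx

theorem HF.zpow {d : Fin r → ℤ} {x : K} (hx : HF 𝒜 ℬ ξ d x) (h0 : x ≠ 0) (n : ℤ) :
    HF 𝒜 ℬ ξ (n • d) (x ^ n) := by
  cases n with
  | ofNat n => rw [Int.ofNat_eq_natCast, natCast_zsmul, zpow_natCast]; exact hx.pow n
  | negSucc n =>
    rw [negSucc_zsmul, zpow_negSucc]
    exact (hx.pow (n + 1)).inv (pow_ne_zero _ h0)

theorem HF.prod {σ : Type*} (s : Finset σ) (d : σ → (Fin r → ℤ)) (x : σ → K)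
    (h : ∀ i ∈ s, HF 𝒜 ℬ ξ (d i) (x i)) : HF 𝒜 ℬ ξ (∑ i ∈ s, d i) (∏ i ∈ s, x i) := by
  classical
  induction s using Finset.induction_on with
  | empty => rw [Finset.sum_empty, Finset.prod_empty]; exact HF.one
  | insert i s hi ih =>
    rw [Finset.sum_insert hi, Finset.prod_insert hi]
    exact (h i (Finset.mem_insert_self _ _)).mul
      (ih fun j hj => h j (Finset.mem_insert_of_mem hj))

/-- A common denominator. -/
theorem common {σ : Type*} (s : Finset σ) (d : σ → (Fin r → ℤ)) (x : σ → K)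
    (h : ∀ i ∈ s, HF 𝒜 ℬ ξ (d i) (x i)) :
    ∃ n e, ∃ b ∈ 𝒜 n, b ∈ ℬ e ∧ ξ b ≠ 0 ∧ ∀ i ∈ s, ∃ c ∈ 𝒜 n, c ∈ ℬ (d i + e) ∧
      ξ b * x i = ξ c := by
  classical
  induction s using Finset.induction_on with
  | empty => exact ⟨0, 0, 1, SetLike.one_mem_graded 𝒜, SetLike.one_mem_graded ℬ,
      by rw [map_one]; exact one_ne_zero, by simp⟩
  | insert i s hi ih =>
    obtain ⟨n, e, b, hb, hb', hb0, hs⟩ := ih fun j hj => h j (Finset.mem_insert_of_mem hj)
    obtain ⟨m, f, a2, ha2, b2, hb2, ha2', hb2', hb20, hx⟩ := h i (Finset.mem_insert_self _ _)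
    refine ⟨n + m, e + f, b * b2, SetLike.mul_mem_graded hb hb2,
      SetLike.mul_mem_graded hb' hb2', by rw [map_mul]; exact mul_ne_zero hb0 hb20, ?_⟩
    intro j hj
    rcases Finset.mem_insert.1 hj with rfl | hj
    · refine ⟨b * a2, SetLike.mul_mem_graded hb ha2, ?_, ?_⟩
      · have h1 := SetLike.mul_mem_graded (A := ℬ) hb' ha2'
        have e1 : d j + (e + f) = e + (d j + f) := by abel
        rw [e1]; exact h1
      · rw [hx, map_mul, map_mul, mul_assoc, mul_div_cancel₀ _ hb20]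
    · obtain ⟨c, hc, hc', hc2⟩ := hs j hj
      refine ⟨c * b2, SetLike.mul_mem_graded hc hb2, ?_, ?_⟩
      · have h1 := SetLike.mul_mem_graded (A := ℬ) hc' hb2'
        rw [← add_assoc]; exact h1
      · rw [map_mul, map_mul, ← hc2]; ring

/-- A vanishing sum of homogeneous elements of distinct weights. -/
theorem sum_zero {σ : Type*} (s : Finset σ) (d : σ → (Fin r → ℤ)) (c : σ → S)
    (hd : Set.InjOn d s) (h : ∀ i ∈ s, c i ∈ ℬ (d i)) (h0 : ∑ i ∈ s, c i = 0) :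
    ∀ i ∈ s, c i = 0 := by
  classical
  intro i hi
  have h1 : ((DirectSum.decompose ℬ (∑ j ∈ s, c j)) (d i) : S) = c i := by
    rw [DirectSum.decompose_sum, DFinsupp.finsetSum_apply, AddSubmonoidClass.coe_finsetSum,
      Finset.sum_eq_single i]
    · rw [DirectSum.decompose_of_mem ℬ (h i hi), DirectSum.of_eq_same]
    · intro j hj hji
      rw [DirectSum.decompose_of_mem ℬ (h j hj), DirectSum.of_eq_of_ne]
      · rfl
      · exact fun e => hji (hd hj hi e.symm)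
    · intro hi'; exact absurd hi hi'
  rw [h0] at h1
  rw [← h1, DirectSum.decompose_zero]
  rfl

variable (hξ : ∀ n, ∀ s ∈ 𝒜 n, ξ s = 0 → s = 0)

include hξ

theorem HF_sum_zero {σ : Type*} (s : Finset σ) (d : σ → (Fin r → ℤ)) (x : σ → K)
    (hd : Set.InjOn d s) (h : ∀ i ∈ s, HF 𝒜 ℬ ξ (d i) (x i)) (h0 : ∑ i ∈ s, x i = 0) :
    ∀ i ∈ s, x i = 0 := by
  classical
  obtain ⟨n, e, b, hb, hb', hb0, hs⟩ := common s d x h
  choose! c hc hc' hc2 using hs
  have h1 : ∑ i ∈ s, c i = 0 := by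
    apply hξ n _ (sum_mem hc)
    rw [map_sum, ← Finset.sum_congr rfl hc2, ← Finset.mul_sum, h0, mul_zero]
  have h2 := sum_zero (ℬ := ℬ) s (fun i => d i + e) c
    (fun i hi j hj hij => hd hi hj (add_right_cancel hij)) hc' h1
  intro i hi
  have h3 := hc2 i hi
  rw [h2 i hi, map_zero] at h3
  exact (mul_eq_zero.1 h3).resolve_left hb0

theorem algInd {n : ℕ} (F : IntermediateField k K) (hF : ∀ x, x ∈ F → HF 𝒜 ℬ ξ 0 x)
    (z : Fin n → K) (l : Fin n → (Fin r → ℤ))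
    (hl : LinearIndependent ℤ l) (hz : ∀ j, HF 𝒜 ℬ ξ (l j) (z j)) (hz0 : ∀ j, z j ≠ 0) :
    AlgebraicIndependent F z := by
  classical
  rw [algebraicIndependent_iff]
  intro p hp
  rw [MvPolynomial.aeval_def, MvPolynomial.eval₂_eq] at hp
  have h1 := HF_sum_zero (ℬ := ℬ) hξ p.support (fun m => ∑ j, (m j : ℤ) • l j)
    (fun m => algebraMap F K (p.coeff m) * ∏ i ∈ m.support, z i ^ m i) ?_ ?_ hp
  · refine MvPolynomial.ext _ _ fun m => ?_
    rw [MvPolynomial.coeff_zero]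
    by_contra hm
    have h2 := h1 m (MvPolynomial.mem_support_iff.2 hm)
    rcases mul_eq_zero.1 h2 with h3 | h3
    · exact hm ((map_eq_zero (algebraMap F K)).1 h3)
    · obtain ⟨i, hi, h4⟩ := Finset.prod_eq_zero_iff.1 h3
      exact pow_ne_zero _ (hz0 i) h4
  · intro m hm m' hm' he
    have h3 : ∑ j, ((m j : ℤ) - (m' j : ℤ)) • l j = 0 := by
      simp only [sub_smul, Finset.sum_sub_distrib]
      exact sub_eq_zero.2 he
    have h4 := Fintype.linearIndependent_iff.1 hl _ h3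
    ext j
    have := h4 j
    omega
  · intro m hm
    have e1 : ∏ i ∈ m.support, z i ^ m i = ∏ i, z i ^ m i := by
      apply Finset.prod_subset (Finset.subset_univ _)
      intro i _ hi
      rw [Finsupp.notMem_support_iff.1 hi, pow_zero]
    rw [e1]
    have h5 := hF _ (p.coeff m).2
    have h6 := HF.prod (𝒜 := 𝒜) (ℬ := ℬ) (ξ := ξ) Finset.univ (fun j => (m j : ℤ) • l j)
      (fun j => z j ^ m j) (by
        intro j _
        have := (hz j).pow (m j)
        rw [natCast_zsmul]; exact this)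
    have h7 := h5.mul h6
    rw [zero_add] at h7
    exact h7

end Pool.Agent.Run7.h360.TA
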