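import Pool.Agent.Run7.h360.TA.Frac

/-!
# Dehomogenization of a homogeneous generic point
-/

set_option autoImplicit false

open DirectSum

namespace Pool.Agent.Run7.h360.TA

variable {k S K : Type} [Field k] [CommRing S] [IsDomain S] [Algebra k S] [Field K] [Algebra k K]
  {r : ℕ} {𝒜 : ℕ → Submodule k S} [GradedAlgebra 𝒜] {ℬ : (Fin r → ℤ) → Submodule k S}
  [GradedAlgebra ℬ]

/-- The generic point can be divided by the value of a form of degree one. -/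
theorem rescale (𝒜 : ℕ → Submodule k S) [GradedAlgebra 𝒜] (ξ : S →ₐ[k] K) (c : K) :
    ∃ ξ' : S →ₐ[k] K, ∀ n, ∀ s ∈ 𝒜 n, ξ' s = ξ s * c ^ n := by
  classical
  let f : ∀ n : ℕ, 𝒜 n →ₗ[k] K := fun n =>
    { toFun := fun s => ξ (s : S) * c ^ n
      map_add' := fun s t => by
        rw [Submodule.coe_add, map_add, add_mul]
      map_smul' := fun a s => by
        rw [Submodule.coe_smul, map_smul, RingHom.id_apply, smul_mul_assoc] }
  let φ : (⨁ n, 𝒜 n) →ₐ[k] K := DirectSum.toAlgebra k (fun n => 𝒜 n) f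
    (by
      change ξ (1 : S) * c ^ 0 = 1
      rw [map_one, pow_zero, mul_one])
    (by
      intro i j ai aj
      change ξ ((ai : S) * (aj : S)) * c ^ (i + j) =
        (ξ (ai : S) * c ^ i) * (ξ (aj : S) * c ^ j)
      rw [map_mul, pow_add]
      ring)
  refine ⟨φ.comp (DirectSum.decomposeAlgEquiv 𝒜 : S →ₐ[k] ⨁ n, 𝒜 n), ?_⟩
  intro n s hs
  change φ (DirectSum.decompose 𝒜 s) = _
  rw [DirectSum.decompose_of_mem 𝒜 hs]
  change DirectSum.toAlgebra k (fun n => 𝒜 n) f _ _ _ = _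
  rw [DirectSum.toAlgebra_apply, DirectSum.toSemiring_of]
  rfl

theorem hf_rescale {ξ ξ' : S →ₐ[k] K} {c : K} (hc : c ≠ 0)
    (h : ∀ n, ∀ s ∈ 𝒜 n, ξ' s = ξ s * c ^ n) {d : Fin r → ℤ} {x : K} :
    HF 𝒜 ℬ ξ' d x ↔ HF 𝒜 ℬ ξ d x := by
  constructor
  · rintro ⟨n, e, a, ha, b, hb, ha', hb', hb0, rfl⟩
    refine ⟨n, e, a, ha, b, hb, ha', hb', ?_, ?_⟩
    · intro h0
      exact hb0 (by rw [h n b hb, h0, zero_mul])
    · rw [h n a ha, h n b hb, mul_div_mul_right _ _ (pow_ne_zero n hc)]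
  · rintro ⟨n, e, a, ha, b, hb, ha', hb', hb0, rfl⟩
    refine ⟨n, e, a, ha, b, hb, ha', hb', ?_, ?_⟩
    · rw [h n b hb]
      exact mul_ne_zero hb0 (pow_ne_zero n hc)
    · rw [h n a ha, h n b hb, mul_div_mul_right _ _ (pow_ne_zero n hc)]

/-- Semi-invariant linear forms which span the space of linear forms. -/
theorem exists_semi (hfg : (𝒜 1).FG) (hS1 : 𝒜 1 ≠ ⊥)
    (hcomp : ∀ n, ∀ s ∈ 𝒜 n, ∀ d, (DirectSum.decompose ℬ s d : S) ∈ 𝒜 n) :
    ∃ (m : ℕ) (b : Fin m → S) (w : Fin m → (Fin r → ℤ)) (_ : Fin m), (∀ i, b i ∈ 𝒜 1) ∧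
      (∀ i, b i ∈ ℬ (w i)) ∧ (∀ i, b i ≠ 0) ∧ 𝒜 1 ≤ Submodule.span k (Set.range b) := by
  classical
  obtain ⟨G0, hG0⟩ := hfg
  let G : Finset S := G0.biUnion fun s => (DirectSum.decompose ℬ s).support.image
      fun d => ((DirectSum.decompose ℬ s) d : S)
  have hmem : ∀ g ∈ G, g ∈ 𝒜 1 ∧ g ≠ 0 ∧ ∃ d, g ∈ ℬ d := by
    intro g hg
    obtain ⟨s, hs, hg⟩ := Finset.mem_biUnion.1 hg
    obtain ⟨d, hd, rfl⟩ := Finset.mem_image.1 hg
    refine ⟨hcomp 1 s (hG0 ▸ Submodule.subset_span hs) d, ?_, d, SetLike.coe_mem _⟩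
    intro h0
    rw [DFinsupp.mem_support_iff] at hd
    exact hd (Subtype.ext h0)
  have hsp : 𝒜 1 ≤ Submodule.span k (G : Set S) := by
    rw [← hG0, Submodule.span_le]
    intro s hs
    rw [SetLike.mem_coe, ← DirectSum.sum_support_decompose ℬ s]
    refine Submodule.sum_mem _ fun d hd => Submodule.subset_span ?_
    rw [Finset.mem_coe, Finset.mem_biUnion]
    exact ⟨s, hs, Finset.mem_image.2 ⟨d, hd, rfl⟩⟩
  have hne : G.Nonempty := by
    by_contra h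
    rw [Finset.not_nonempty_iff_eq_empty] at h
    rw [h, Finset.coe_empty, Submodule.span_empty] at hsp
    exact hS1 (le_bot_iff.1 hsp)
  let b : Fin G.card → S := fun i => (G.equivFin.symm i : S)
  have hrange : Set.range b = (G : Set S) := by
    ext x
    constructor
    · rintro ⟨i, rfl⟩
      exact (G.equivFin.symm i).2
    · intro hx
      exact ⟨G.equivFin ⟨x, hx⟩, by simp [b]⟩
  choose w hw using fun i : Fin G.card => (hmem _ (G.equivFin.symm i).2).2.2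
  exact ⟨G.card, b, w, ⟨0, Finset.card_pos.2 hne⟩, fun i => (hmem _ (G.equivFin.symm i).2).1, hw,
    fun i => (hmem _ (G.equivFin.symm i).2).2.1, by rw [hrange]; exact hsp⟩

end Pool.Agent.Run7.h360.TA
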